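import Mathlib
import Pool.Agent.GPerm59.Base

/-!
# G-permutable subgroups: supplements, products of cyclic groups
-/

set_option autoImplicit false

open Pool.Agent.GPerm59 Pointwise

namespace Pool.Agent.Lib.MP_8f3271_al

/-! ### Row lin-A1 -/

theorem A1_step {G : Type*} [Group G] [IsSimpleGroup G] {A C D : Subgroup G}
    (hA : GPermutable A) (hAC : Cov A C) (hD : D ≠ ⊥) (hn : ∀ c ∈ C, conj D c = D) : Cov A D := by
  obtain ⟨c, hc, hperm⟩ := perm_in_supplement (D := D) hA hAC
  rw [hn c hc] at hperm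
  by_cases htop : prod A D hperm = ⊤
  · exact cov_of_prod_eq_top hperm htop
  · exfalso
    apply hD
    refine eq_bot_of_conj_le htop fun g => ?_
    obtain ⟨c', hc', a, ha, e⟩ := hAC.symm g
    rw [e, ← conj_conj, hn c' hc']
    exact conj_le_self (right_le_prod hperm) (left_le_prod hperm ha)

theorem A1_index {G : Type*} [Group G] [Finite G] {A D : Subgroup G} (h : Cov A D) :
    A.index ≤ Nat.card D := by
  unfold Subgroup.index
  refine Nat.card_le_card_of_surjective (fun d : D => (QuotientGroup.mk (d : G) : G ⧸ A)) ?_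
  intro q
  obtain ⟨g, rfl⟩ := QuotientGroup.mk_surjective q
  obtain ⟨d, hd, a, ha, e⟩ := h.symm g
  refine ⟨⟨d, hd⟩, ?_⟩
  show (QuotientGroup.mk d : G ⧸ A) = QuotientGroup.mk g
  rw [QuotientGroup.eq, e]
  simpa using ha

theorem A1_fact {p k : ℕ} (hp : p.Prime) (hk : k ≤ p) : ¬ p ^ 2 ∣ k.factorial := by
  intro h
  have h1 : p ^ 2 ∣ p.factorial := h.trans (Nat.factorial_dvd_factorial hk)
  have h2 : p.factorial = p * (p - 1).factorial := (Nat.mul_factorial_pred hp.ne_zero).symm
  rw [h2, pow_two] at h1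
  have h3 : p ∣ (p - 1).factorial := Nat.dvd_of_mul_dvd_mul_left hp.pos h1
  have h4 := (hp.dvd_factorial).1 h3
  have := hp.two_le
  omega

/-- A `G`-permutable subgroup has no supplement with a large normal `p`-subgroup.
Proof. Suppose `G = AB`. (i) If `G = AC` and `D ≤ C`, `D ≠ 1`, is normalized by `C`, then `G = AD`:
by `perm_in_supplement` some `D^c`, `c ∈ C`, that is `D`, permutes with `A`; `H = prod A D` is a
subgroup, and `D ≤ H^g` for all `g` (write `g = a c`; `H^a = H`, `H^c ≥ D^c = D`), so the core of `H`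
is nontrivial (`eq_bot_of_conj_le` of `GPerm59.Base` may help) and `H = G`. (ii) So `G = AN`, and then
`G = AD` for `D ≤ center N` of order `p`. So `A.index ≤ p`. (iii) `G` acts faithfully on `G ⧸ A` (simple,
`A ≠ ⊤`), so `N` embeds into `Perm (G ⧸ A)` and `p ^ 2 ∣ (A.index)!` with `A.index ≤ p`: false. -/
theorem not_cov_of_pgroup {G : Type*} [Group G] [Finite G] [IsSimpleGroup G] {A B N : Subgroup G}
    (hA : GPermutable A) (hAt : A ≠ ⊤) (hN : N ≤ B) (hn : ∀ b ∈ B, ∀ x ∈ N, b⁻¹ * x * b ∈ N)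
    {p : ℕ} [Fact p.Prime] (hp : IsPGroup p N) (hc : p ^ 2 ≤ Nat.card N) : ¬ Cov A B := by
  intro hcov
  have hpp : p.Prime := Fact.out
  have hNb : ∀ b ∈ B, conj N b = N := by
    intro b hb
    apply le_antisymm
    · intro z hz
      rw [mem_conj] at hz
      have h1 := hn b hb _ hz
      have e : b⁻¹ * (b * z * b⁻¹) * b = z := by group
      rwa [e] at h1
    · intro z hz
      rw [mem_conj]
      have h1 := hn b⁻¹ (B.inv_mem hb) z hz
      rwa [inv_inv] at h1
  have hNne : N ≠ ⊥ := by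
    rintro rfl
    rw [Subgroup.card_bot] at hc
    have := hpp.two_le
    nlinarith
  have hAN : Cov A N := A1_step hA hcov hNne hNb
  -- a central subgroup of order p
  have hNnt : Nontrivial N := (Subgroup.nontrivial_iff_ne_bot N).2 hNne
  have hcen : Nontrivial (Subgroup.center N) := hp.center_nontrivial
  have hpc : IsPGroup p (Subgroup.center N) := hp.to_subgroup _
  have hdvd : p ∣ Nat.card (Subgroup.center N) := by
    obtain ⟨k, hk⟩ := (IsPGroup.iff_card).1 hpc
    rw [hk]
    have h1 : 1 < Nat.card (Subgroup.center N) := Finite.one_lt_card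
    have hk0 : k ≠ 0 := by
      rintro rfl
      rw [hk, pow_zero] at h1
      exact lt_irrefl _ h1
    exact dvd_pow_self p hk0
  obtain ⟨x, hx⟩ := exists_prime_orderOf_dvd_card' p hdvd
  set y : G := ((x : N) : G) with hy
  have hyo : orderOf y = p := by
    rw [hy, Subgroup.orderOf_coe, Subgroup.orderOf_coe, hx]
  have hyN : y ∈ N := (x : N).2
  have hcomm : ∀ n ∈ N, n * y = y * n := by
    intro n hn'
    have h1 := (Subgroup.mem_center_iff.1 x.2) ⟨n, hn'⟩
    have h2 := congrArg (Subtype.val) h1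
    simpa using h2
  have hDne : Subgroup.zpowers y ≠ ⊥ := by
    rw [Ne, Subgroup.zpowers_eq_bot]
    rintro h1
    rw [h1, orderOf_one] at hyo
    exact hpp.one_lt.ne hyo
  have hDn : ∀ c ∈ N, conj (Subgroup.zpowers y) c = Subgroup.zpowers y := by
    intro c hc'
    have hcz : ∀ z ∈ Subgroup.zpowers y, c * z * c⁻¹ = z := by
      intro z hz
      obtain ⟨k, rfl⟩ := Subgroup.mem_zpowers_iff.1 hz
      have h1 : Commute c y := hcomm c hc'
      have h2 := (h1.zpow_right k).eq
      rw [h2]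
      group
    have hcz' : ∀ z ∈ Subgroup.zpowers y, c⁻¹ * z * c = z := by
      intro z hz
      have h1 := hcz z hz
      calc c⁻¹ * z * c = c⁻¹ * (c * z * c⁻¹) * c := by rw [h1]
        _ = z := by group
    ext z
    rw [mem_conj]
    constructor
    · intro hz
      have h1 := hcz' _ hz
      have e : c⁻¹ * (c * z * c⁻¹) * c = z := by group
      rw [e] at h1
      rw [h1]
      exact hz
    · intro hz
      rw [hcz z hz]
      exact hz
  have hAD : Cov A (Subgroup.zpowers y) := A1_step hA hAN hDne hDn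
  have hidx : A.index ≤ p := by
    have h1 := A1_index hAD
    rwa [Nat.card_zpowers, hyo] at h1
  -- the action on the cosets
  have hcore : A.normalCore = ⊥ := by
    rcases (Subgroup.normalCore_normal A).eq_bot_or_eq_top with h1 | h1
    · exact h1
    · exact absurd (top_le_iff.1 (h1 ▸ Subgroup.normalCore_le A)) hAt
  have hinj : Function.Injective (MulAction.toPermHom G (G ⧸ A)) := by
    rw [← MonoidHom.ker_eq_bot_iff, ← Subgroup.normalCore_eq_ker, hcore]
  have hinj2 : Function.Injective ((MulAction.toPermHom G (G ⧸ A)).comp N.subtype) :=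
    hinj.comp N.subtype_injective
  have hd : Nat.card N ∣ Nat.card (Equiv.Perm (G ⧸ A)) := Subgroup.card_dvd_of_injective _ hinj2
  have hcp : Nat.card (Equiv.Perm (G ⧸ A)) = A.index.factorial := by
    rw [Nat.card_perm]
    rfl
  obtain ⟨k, hk⟩ := (IsPGroup.iff_card).1 hp
  have hk2 : 2 ≤ k := by
    by_contra hlt
    push Not at hlt
    have h1 : p ^ k < p ^ 2 := Nat.pow_lt_pow_right hpp.one_lt hlt
    rw [← hk] at h1
    exact absurd hc (not_le.2 h1)
  have h2 : p ^ 2 ∣ Nat.card N := by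
    rw [hk]
    exact pow_dvd_pow p hk2
  rw [hcp] at hd
  exact A1_fact hpp hidx (h2.trans hd)

/-! ### Row lin-A2 -/

/-- If `B` is a maximal subgroup which is not a supplement of `A` then `A` lies in a conjugate of `B`.
(`hA B` gives `x`; `prod A (conj B x)` contains the maximal subgroup `conj B x`; if it is `⊤` then
`Cov A (conj B x)`, hence `Cov A B` by `Cov.conj`.) -/
theorem le_conj_of_coatom {G : Type*} [Group G] {A B : Subgroup G} (hA : GPermutable A)
    (hB : IsCoatom B) (h : ¬ Cov A B) : ∃ x : G, A ≤ conj B x := by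
  obtain ⟨x, hx⟩ := hA B
  refine ⟨x, ?_⟩
  have h1 : B ≤ conj (prod A (conj B x) hx) x⁻¹ := conj_le_iff.1 (right_le_prod hx)
  rcases hB.le_iff.1 h1 with h2 | h2
  · exfalso
    apply h
    have h3 : prod A (conj B x) hx = ⊤ := by
      have h4 := congrArg (fun C => conj C x) h2
      simpa only [conj_conj, inv_mul_cancel, conj_one, conj_top] using h4
    have h5 := (cov_of_prod_eq_top hx h3).conj x⁻¹
    rwa [conj_conj, mul_inv_cancel, conj_one] at h5
  · have h4 := congrArg (fun C => conj C x) h2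
    simp only [conj_conj, inv_mul_cancel, conj_one] at h4
    rw [← h4]
    exact left_le_prod hx

/-! ### Row lin-A3 -/

theorem A3_pow {G : Type*} [Group G] [Finite G] {t y : G} (hy : y ∈ Subgroup.zpowers t) :
    ∃ l, l < orderOf t ∧ t ^ l = y := by
  classical
  have h := mem_zpowers_iff_mem_range_orderOf.1 hy
  simpa using h

theorem A3_mem {G : Type*} [Group G] [Finite G] {t y : G} {j : ℕ} (hy : y ∈ Subgroup.zpowers t)
    (ho : orderOf y = orderOf (t ^ j)) : y ∈ Subgroup.zpowers (t ^ j) := by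
  obtain ⟨l, hl, rfl⟩ := A3_pow hy
  have hN : 0 < orderOf t := orderOf_pos t
  have hg : (orderOf t).gcd l = (orderOf t).gcd j := by
    rw [orderOf_pow, orderOf_pow] at ho
    have h1 := Nat.div_mul_cancel (Nat.gcd_dvd_left (orderOf t) l)
    have h2 := Nat.div_mul_cancel (Nat.gcd_dvd_left (orderOf t) j)
    rw [ho] at h1
    have h3 : 0 < orderOf t / (orderOf t).gcd j :=
      Nat.div_pos (Nat.le_of_dvd hN (Nat.gcd_dvd_left _ _)) (Nat.gcd_pos_of_pos_left _ hN)
    exact Nat.eq_of_mul_eq_mul_left h3 (h1.trans h2.symm)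
  obtain ⟨m, hm⟩ := Nat.gcd_dvd_right (orderOf t) l
  rw [hm, hg, pow_mul]
  apply Subgroup.pow_mem
  have h1 := Nat.gcd_eq_gcd_ab (orderOf t) j
  refine ⟨(orderOf t).gcdB j, ?_⟩
  change (t ^ j) ^ (orderOf t).gcdB j = t ^ (orderOf t).gcd j
  rw [← zpow_natCast t ((orderOf t).gcd j), h1, zpow_add, zpow_mul, zpow_mul, zpow_natCast,
    pow_orderOf_eq_one, one_zpow, one_mul, zpow_natCast]

/-- Product of two cyclic groups. `M = ⟨a⟩⟨t⟩`, `T = ⟨t⟩`, `K = T ∩ T^a` (`T^a = a⁻¹ T a`). `K` is the only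
subgroup of its order in the cyclic group `T^a`, and `a⁻¹ K a ≤ T^a` has the same order, so `K` is
normalized by `a`. If `T = M` then `a ∈ T` and `j = 1` works. Otherwise `T T^a ≠ M` (if `a = t₁ a⁻¹ t₂ a`
then `a = t₂ t₁`), so `|T|² / |K| = |T T^a| < |M| ≤ |⟨a⟩| |T|` and `j = |T : K| < orderOf a`, `K = ⟨t ^ j⟩`. -/
theorem cyc_prod {G : Type*} [Group G] [Finite G] {a t : G}
    (h : (Subgroup.zpowers a : Set G) * (Subgroup.zpowers t : Set G) =
      (Subgroup.zpowers t : Set G) * (Subgroup.zpowers a : Set G)) (ha : 2 ≤ orderOf a) :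
    ∃ j : ℕ, 0 < j ∧ j < orderOf a ∧ a * t ^ j * a⁻¹ ∈ Subgroup.zpowers (t ^ j) := by
  by_cases haT : a ∈ Subgroup.zpowers t
  · refine ⟨1, one_pos, by omega, ?_⟩
    rw [pow_one]
    exact Subgroup.mul_mem _ (Subgroup.mul_mem _ haT (Subgroup.mem_zpowers t))
      (Subgroup.inv_mem _ haT)
  have key : ∀ k : ℕ, ∃ i : ℕ, i ∈ Finset.Ico 1 (orderOf a) ∧
      (t ^ k * a⁻¹)⁻¹ * a ^ i ∈ Subgroup.zpowers t := by
    intro k
    have h1 : t ^ k * a⁻¹ ∈ (Subgroup.zpowers a : Set G) * (Subgroup.zpowers t : Set G) := by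
      rw [h]
      exact Set.mul_mem_mul (Subgroup.pow_mem _ (Subgroup.mem_zpowers t) k)
        (Subgroup.inv_mem _ (Subgroup.mem_zpowers a))
    obtain ⟨a', ha', t', ht', e⟩ := Set.mem_mul.1 h1
    obtain ⟨i, hi, rfl⟩ := A3_pow ha'
    have hmem : (t ^ k * a⁻¹)⁻¹ * a ^ i ∈ Subgroup.zpowers t := by
      rw [← e]
      have : (a ^ i * t')⁻¹ * a ^ i = t'⁻¹ := by group
      rw [this]
      exact Subgroup.inv_mem _ ht'
    refine ⟨i, ?_, hmem⟩
    rw [Finset.mem_Ico]
    refine ⟨?_, hi⟩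
    by_contra h0
    have h0' : i = 0 := by omega
    subst h0'
    apply haT
    rw [pow_zero, mul_one, mul_inv_rev, inv_inv] at hmem
    have h2 := Subgroup.mul_mem _ hmem (Subgroup.pow_mem _ (Subgroup.mem_zpowers t) k)
    rwa [inv_mul_cancel_right] at h2
  choose f hf1 hf2 using key
  obtain ⟨k, hk, k', hk', hne, heq⟩ := Finset.exists_ne_map_eq_of_card_lt_of_maps_to
    (s := Finset.range (orderOf a)) (t := Finset.Ico 1 (orderOf a)) (f := f)
    (by rw [Finset.card_range, Nat.card_Ico]; omega) (fun k _ => hf1 k)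
  have main : ∀ k k' : ℕ, k < k' → k' < orderOf a → f k = f k' →
      ∃ j : ℕ, 0 < j ∧ j < orderOf a ∧ a * t ^ j * a⁻¹ ∈ Subgroup.zpowers (t ^ j) := by
    intro k k' h1 h2 h3
    refine ⟨k' - k, by omega, by omega, ?_⟩
    apply A3_mem
    · have h4 := Subgroup.mul_mem _ (hf2 k) (Subgroup.inv_mem _ (hf2 k'))
      rw [h3] at h4
      have h5 : (t ^ k * a⁻¹)⁻¹ * a ^ f k' * ((t ^ k' * a⁻¹)⁻¹ * a ^ f k')⁻¹ =
          a * ((t ^ k)⁻¹ * t ^ k') * a⁻¹ := by group
      rw [h5] at h4
      have h6 : (t ^ k)⁻¹ * t ^ k' = t ^ (k' - k) := by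
        rw [inv_mul_eq_iff_eq_mul, ← pow_add]
        congr 1; omega
      rwa [h6] at h4
    · exact (MulAut.conj a).orderOf_eq (t ^ (k' - k))
  rw [Finset.mem_range] at hk hk'
  rcases lt_or_gt_of_ne hne with h1 | h1
  · exact main k k' h1 hk' heq
  · exact main k' k h1 hk heq.symm

end Pool.Agent.Lib.MP_8f3271_al
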