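import Mathlib
import Pool.Agent.Lib.MP_8f3271_al.L.A

/-!
# PSL(n, F) is simple; fixed points and hyperplanes of G-permutable subgroups
-/

set_option autoImplicit false

open Pool.Agent.GPerm59 Pointwise Module

namespace Pool.Agent.Lib.MP_8f3271_al

/-- `π` maps `SL(V)` onto `G` and its kernel consists of the scalars in `SL(V)`. -/
structure IsProj {F V G : Type*} [Field F] [AddCommGroup V] [Module F V] [Group G]
    (π : SpecialLinearGroup F V →* G) : Prop where
  surj : Function.Surjective π
  ker : ∀ g : SpecialLinearGroup F V, π g = 1 ↔ ∃ c : F, ∀ x : V, g x = c • x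

/-! ### Row lin-B1 -/

section B1

open Matrix.SpecialLinearGroup

variable {ι F : Type*} [Field F] [DecidableEq ι] [Fintype ι]

private theorem B1_act {i j : ι} (hij : i ≠ j) (b : F) (w : ι → F) (k : ι) :
    ((transvection hij b : Matrix.SpecialLinearGroup ι F) • w) k =
      w k + if k = i then b * w j else 0 := by
  rw [Matrix.SpecialLinearGroup.smul_def, transvection_coe]
  simp [add_smul, Matrix.single_mulVec_eq, Pi.single_apply]

private theorem B1_ext {g h : Matrix.SpecialLinearGroup ι F} (e : ∀ (w : ι → F) (k : ι), (g • w) k = (h • w) k) :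
    g = h := by
  refine Subtype.ext (Matrix.ext_iff_smul.2 fun w => ?_)
  funext k
  exact e w k

private theorem B1_comm {i j k : ι} (hij : i ≠ j) (hik : i ≠ k) (hkj : k ≠ j) (a : F) :
    (transvection hij a : Matrix.SpecialLinearGroup ι F) =
      transvection hik a * transvection hkj 1 * transvection hik (-a) * transvection hkj (-1) := by
  apply B1_ext
  intro w l
  simp only [mul_smul, B1_act]
  by_cases h1 : l = i
  · subst h1
    simp [hij, hij.symm, hik, hik.symm, hkj, hkj.symm]
    try ring
  · by_cases h2 : l = k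
    · subst h2
      simp [hij, hij.symm, hik, hik.symm, hkj, hkj.symm]
    · simp [h1, h2]

private theorem B1_diag {i j : ι} (hij : i ≠ j) (a : F) (ha : a ≠ 0) :
    (diag2n hij a ha : Matrix.SpecialLinearGroup ι F) =
      transvection hij a * transvection hij.symm (-a⁻¹) * transvection hij a *
      (transvection hij (-1) * transvection hij.symm 1 * transvection hij (-1)) := by
  apply B1_ext
  intro w l
  have h0 : (diag2n hij a ha • w) l = (if l = i then a else if l = j then a⁻¹ else 1) * w l := by
    rw [Matrix.SpecialLinearGroup.smul_def, diag2n_coe]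
    simp [Matrix.mulVec_diagonal]
  rw [h0]
  simp only [mul_smul, B1_act]
  by_cases h1 : l = i
  · subst h1
    simp [hij, hij.symm]
    field_simp
    try ring
  · by_cases h2 : l = j
    · subst h2
      simp [hij, hij.symm]
      field_simp
      try ring
    · simp [h1, h2]

/-- every transvection is a commutator, so `SL` is perfect -/
private theorem B1_perfect [Nontrivial ι] (h3 : ∀ i j : ι, i ≠ j → ∃ k, i ≠ k ∧ k ≠ j) :
    Group.IsPerfect (Matrix.SpecialLinearGroup ι F) := by
  have htr : ∀ (i j : ι) (hij : i ≠ j) (a : F),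
      (transvection hij a : Matrix.SpecialLinearGroup ι F) ∈
        commutator (Matrix.SpecialLinearGroup ι F) := by
    intro i j hij a
    obtain ⟨k, hik, hkj⟩ := h3 i j hij
    rw [B1_comm hij hik hkj a, ← transvection_inv, ← transvection_inv]
    exact Subgroup.commutator_mem_commutator (Subgroup.mem_top _) (Subgroup.mem_top _)
  refine ⟨le_antisymm le_top fun A _ => ?_⟩
  refine diagonal_transvection_induction'
    (fun A => A ∈ commutator (Matrix.SpecialLinearGroup ι F)) A ?_ htr (fun _ _ => mul_mem)
  intro i j hij a ha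
  rw [B1_diag hij a ha]
  exact mul_mem (mul_mem (mul_mem (htr _ _ _ _) (htr _ _ _ _)) (htr _ _ _ _))
    (mul_mem (mul_mem (htr _ _ _ _) (htr _ _ _ _)) (htr _ _ _ _))

/-- the subgroups of the Iwasawa structure generate `SL` -/
private theorem B1_gen [Nontrivial ι] :
    (⨆ p : Projectivization F (ι → F), lineStab p.submodule) =
      (⊤ : Subgroup (Matrix.SpecialLinearGroup ι F)) := by
  have htr : ∀ (i j : ι) (hij : i ≠ j) (a : F),
      (transvection hij a : Matrix.SpecialLinearGroup ι F) ∈
        (⨆ p : Projectivization F (ι → F), lineStab p.submodule :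
          Subgroup (Matrix.SpecialLinearGroup ι F)) := by
    intro i j hij a
    have h1 := SL2Gen.transvection_mem_lineStab hij a
    rw [← Projectivization.submodule_mk (K := F) _ (Pi.single_ne_zero_iff.2 one_ne_zero)] at h1
    exact (le_iSup (fun p : Projectivization F (ι → F) =>
      (lineStab p.submodule : Subgroup (Matrix.SpecialLinearGroup ι F))) _) h1
  refine le_antisymm le_top fun A _ => ?_
  refine diagonal_transvection_induction'
    (fun A => A ∈ (⨆ p : Projectivization F (ι → F), lineStab p.submodule :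
          Subgroup (Matrix.SpecialLinearGroup ι F))) A ?_ htr (fun _ _ => mul_mem)
  intro i j hij a ha
  rw [B1_diag hij a ha]
  exact mul_mem (mul_mem (mul_mem (htr _ _ _ _) (htr _ _ _ _)) (htr _ _ _ _))
    (mul_mem (mul_mem (htr _ _ _ _) (htr _ _ _ _)) (htr _ _ _ _))

/-- the Iwasawa structure -/
private noncomputable def B1_iwa [Nontrivial ι] :
    MulAction.IwasawaStructure (Matrix.ProjectiveSpecialLinearGroup ι F)
      (Projectivization F (ι → F)) where
  T := PSL.iwasawaT
  is_comm p := by
    have hSL : IsMulCommutative (lineStab (F := F) (ι := ι) p.submodule) := by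
      rw [← Projectivization.mk_rep p, Projectivization.submodule_mk]
      exact lineStab_isMulCommutative_of_span p.rep p.rep_nonzero
    exact Subgroup.map_isMulCommutative _ _
  is_conj g p := by
    obtain ⟨g_SL, rfl⟩ := QuotientGroup.mk_surjective g
    rw [Matrix.ProjectiveSpecialLinearGroup.smul_proj_mk]
    change Subgroup.map _ _ = _
    rw [PSL.smul_submodule, Matrix.SpecialLinearGroup.lineStab_smul,
      PSL.iwasawaT_map_conj]
  is_generator := by
    have step1 : iSup (PSL.iwasawaT (F := F) (ι := ι)) =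
        Subgroup.map (QuotientGroup.mk' (Subgroup.center (Matrix.SpecialLinearGroup ι F)))
          (⨆ p : Projectivization F (ι → F),
            Matrix.SpecialLinearGroup.lineStab (F := F) (ι := ι) p.submodule) := by
      rw [Subgroup.map_iSup]
    rw [step1, B1_gen]
    exact Subgroup.map_top_of_surjective _ (QuotientGroup.mk'_surjective _)

end B1

/-- Mathlib: `Mathlib/LinearAlgebra/Projectivization/PSL/PSL2.lean` does `n = 2`; everything there except
`PSL.iSup_lineStab_eq_top` and the commutator is already for general `ι` (`lineStab`, `PSL.iwasawaT`,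
`MulAction.IwasawaStructure.isSimpleGroup`). Generation: `exists_list_transvec_mul_diagonal_mul_list_transvec`
and diagonal matrices of determinant `1` are products of transvections (or any other proof); for three
different indices `[T_ij(a), T_jk(1)] = T_ik(a)`, so `SL` is perfect. -/
theorem psl_simple {n : ℕ} (hn : 3 ≤ n) (F : Type*) [Field F] :
    IsSimpleGroup (Matrix.ProjectiveSpecialLinearGroup (Fin n) F) := by
  haveI : Nontrivial (Fin n) := ⟨⟨⟨0, by omega⟩, ⟨1, by omega⟩, by simp⟩⟩
  have h3 : ∀ i j : Fin n, i ≠ j → ∃ k, i ≠ k ∧ k ≠ j := by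
    intro i j _
    have hc : ({i, j} : Finset (Fin n)).card < Fintype.card (Fin n) := by
      rw [Fintype.card_fin]
      exact lt_of_le_of_lt (Finset.card_le_two) (by omega)
    obtain ⟨k, hk⟩ := Finset.exists_mem_notMem_of_card_lt_card (s := {i, j})
      (t := Finset.univ) (by rw [Finset.card_univ]; exact hc)
    have hk2 := hk.2
    simp only [Finset.mem_insert, Finset.mem_singleton, not_or] at hk2
    exact ⟨k, fun e => hk2.1 e.symm, hk2.2⟩
  haveI : Group.IsPerfect (Matrix.SpecialLinearGroup (Fin n) F) := B1_perfect h3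
  have hp : Group.IsPerfect (Matrix.ProjectiveSpecialLinearGroup (Fin n) F) := inferInstance
  exact MulAction.IwasawaStructure.isSimpleGroup hp.commutator_eq_top B1_iwa inferInstance

/-! ### Row lin-B2 -/

/-- `π : SL(F^n) → PSL(n, F)` (use `Matrix.SpecialLinearGroup.toLin'_equiv` and
`Matrix.SpecialLinearGroup.mem_center_iff`). -/
theorem exists_proj (n : ℕ) (F : Type*) [Field F] :
    ∃ π : SpecialLinearGroup F (Fin n → F) →* Matrix.ProjectiveSpecialLinearGroup (Fin n) F,
      IsProj π := by
  let e := (Matrix.SpecialLinearGroup.toLin'_equiv (n := Fin n) (R := F)).symm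
  refine ⟨(QuotientGroup.mk' (Subgroup.center (Matrix.SpecialLinearGroup (Fin n) F))).comp
    e.toMonoidHom, ?_, ?_⟩
  · exact (QuotientGroup.mk'_surjective _).comp e.surjective
  · intro g
    have h1 : ((QuotientGroup.mk' (Subgroup.center (Matrix.SpecialLinearGroup (Fin n) F))).comp
        e.toMonoidHom) g = 1 ↔ g ∈ Subgroup.center (SpecialLinearGroup F (Fin n → F)) := by
      rw [← show e g ∈ Subgroup.center _ ↔ g ∈ Subgroup.center _ from
        MulEquivClass.apply_mem_center_iff e]
      exact QuotientGroup.eq_one_iff _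
    rw [h1, SpecialLinearGroup.mem_center_iff]
    constructor
    · rintro ⟨r, -, hr⟩
      refine ⟨r, fun x => ?_⟩
      have := LinearMap.congr_fun hr x
      simpa using this
    · rintro ⟨c, hc⟩
      have h2 : ((g : (Fin n → F) ≃ₗ[F] (Fin n → F)) : (Fin n → F) →ₗ[F] (Fin n → F)) =
          c • LinearMap.id := by
        apply LinearMap.ext
        intro x
        simpa using hc x
      refine ⟨c, ?_, h2⟩
      have h3 := congrArg (Units.val) g.prop
      rw [LinearEquiv.coe_det, h2, LinearMap.det_smul, LinearMap.det_id, mul_one] at h3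
      simpa using h3

variable {F V G : Type*} [Field F] [Finite F] [AddCommGroup V] [Module F V] [FiniteDimensional F V]
  [Group G] [Finite G] {π : SpecialLinearGroup F V →* G} {A : Subgroup G}

/-! ### Row lin-B3 -/

/-- the stabilizer of a point -/
private theorem B3_stab {F V : Type*} [Field F] [AddCommGroup V] [Module F V] {x₀ : V}
    (h0 : x₀ ≠ 0) (g : SpecialLinearGroup F V) :
    g ∈ MulAction.stabilizer (SpecialLinearGroup F V) (Projectivization.mk F x₀ h0) ↔
      ∃ c : F, g x₀ = c • x₀ := by
  rw [MulAction.mem_stabilizer_iff, Projectivization.smul_mk, Projectivization.mk_eq_mk_iff']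
  constructor
  · rintro ⟨a, ha⟩
    exact ⟨a, ha.symm⟩
  · rintro ⟨a, ha⟩
    exact ⟨a, ha.symm⟩

private theorem B3_mul {F V : Type*} [Field F] [AddCommGroup V] [Module F V]
    (g h : SpecialLinearGroup F V) (x : V) : (g * h) x = g (h x) := rfl

private theorem B3_inv {F V : Type*} [Field F] [AddCommGroup V] [Module F V]
    (g : SpecialLinearGroup F V) (x : V) : g⁻¹ (g x) = x := by
  rw [← B3_mul, inv_mul_cancel]
  rfl

private theorem B3_smul {F V : Type*} [Field F] [AddCommGroup V] [Module F V]
    (g : SpecialLinearGroup F V) (c : F) (x : V) : g (c • x) = c • g x := map_smul g.val c x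

private theorem B3_add {F V : Type*} [Field F] [AddCommGroup V] [Module F V]
    (g : SpecialLinearGroup F V) (x y : V) : g (x + y) = g x + g y := map_add g.val x y

/-- the functionals which vanish at `x₀` -/
private def B3_W (F : Type*) {V : Type*} [Field F] [AddCommGroup V] [Module F V] (x₀ : V) :
    Submodule F (Dual F V) := (Submodule.span F {x₀}).dualAnnihilator

private theorem B3_mem {F V : Type*} [Field F] [AddCommGroup V] [Module F V] {x₀ : V}
    {f : Dual F V} : f ∈ B3_W F x₀ ↔ f x₀ = 0 := by
  unfold B3_W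
  rw [Submodule.mem_dualAnnihilator]
  constructor
  · intro h
    exact h x₀ (Submodule.mem_span_singleton_self x₀)
  · intro h w hw
    obtain ⟨c, rfl⟩ := Submodule.mem_span_singleton.1 hw
    rw [map_smul, h, smul_zero]

/-- the transvections with centre `x₀` -/
private noncomputable def B3_tau (F : Type*) {V : Type*} [Field F] [AddCommGroup V] [Module F V]
    (x₀ : V) : Multiplicative (B3_W F x₀) →* SpecialLinearGroup F V where
  toFun f := ⟨LinearEquiv.transvection (B3_mem.1 (Multiplicative.toAdd f).2),
    LinearEquiv.transvection.det_eq_one _⟩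
  map_one' := by
    ext x
    show x + (0 : Dual F V) x • x₀ = x
    simp
  map_mul' f g := by
    ext x
    show x + ((Multiplicative.toAdd f).1 + (Multiplicative.toAdd g).1) x • x₀ =
      (x + (Multiplicative.toAdd g).1 x • x₀) +
        (Multiplicative.toAdd f).1 (x + (Multiplicative.toAdd g).1 x • x₀) • x₀
    have h := B3_mem.1 (Multiplicative.toAdd f).2
    rw [map_add, map_smul, h, smul_zero, add_zero, LinearMap.add_apply, add_smul]
    abel

private theorem B3_tau_apply {F V : Type*} [Field F] [AddCommGroup V] [Module F V] (x₀ : V)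
    (f : Multiplicative (B3_W F x₀)) (x : V) :
    B3_tau F x₀ f x = x + (Multiplicative.toAdd f).1 x • x₀ := rfl

private theorem B3_card {F V : Type*} [Field F] [Finite F] [AddCommGroup V] [Module F V]
    [FiniteDimensional F V] {x₀ : V} (h0 : x₀ ≠ 0) (hn : 3 ≤ finrank F V) {p : ℕ} (hp : p.Prime)
    [CharP F p] : p ^ 2 ≤ Nat.card (B3_W F x₀) := by
  have h1 : finrank F (B3_W F x₀) + 1 = finrank F V := by
    have h2 := Subspace.finrank_add_finrank_dualAnnihilator_eq (Submodule.span F {x₀})
    rw [finrank_span_singleton h0] at h2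
    unfold B3_W
    omega
  rw [Module.natCard_eq_pow_finrank (K := F)]
  have h3 : p ≤ Nat.card F := by
    have : Fintype F := Fintype.ofFinite F
    have : Fact p.Prime := ⟨hp⟩
    obtain ⟨n, _, hn⟩ := FiniteField.card F p
    rw [Nat.card_eq_fintype_card, hn]
    exact Nat.le_self_pow n.ne_zero p
  have h4 : 1 ≤ Nat.card F := le_trans hp.one_le h3
  calc p ^ 2 ≤ Nat.card F ^ 2 := Nat.pow_le_pow_left h3 2
    _ ≤ Nat.card F ^ finrank F (B3_W F x₀) := Nat.pow_le_pow_right h4 (by omega)

/-- A `G`-permutable `A ≠ G` fixes a point. Proof: take `x₀ ≠ 0`, `S` the stabilizer in `SL(V)` of the point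
`⟨x₀⟩` of `ℙ F V`; it is maximal (`IsPreprimitive (SpecialLinearGroup K V) (ℙ K V)` is in Mathlib,
`MulAction.IsPreprimitive.isCoatom_stabilizer_of_isPreprimitive` or similar), and it contains the kernel of
`π`, so `B = S.map π` is maximal. `N` = image of the group of transvections `x ↦ x + f x • x₀`, `f x₀ = 0`
(`LinearEquiv.transvection`): an elementary abelian `p`-group with `q ^ (n - 1) ≥ p ^ 2` elements, normalized
by `B`. By `not_cov_of_pgroup` and `le_conj_of_coatom`, `A ≤ conj B x`, `x = π h`; then `h⁻¹ x₀` is the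
fixed vector. -/
theorem exists_fixed_point [IsSimpleGroup G] (hπ : IsProj π) (hn : 3 ≤ finrank F V)
    (hA : GPermutable A) (hAt : A ≠ ⊤) :
    ∃ x₀ : V, x₀ ≠ 0 ∧ ∀ g, π g ∈ A → ∃ c : F, g x₀ = c • x₀ := by
  have : Nontrivial V := Module.nontrivial_of_finrank_pos (R := F) (by omega)
  obtain ⟨x₀, h0⟩ := exists_ne (0 : V)
  obtain ⟨p, hchar⟩ := CharP.exists F
  have hp : p.Prime := (CharP.char_is_prime_or_zero F p).resolve_right
    (fun h => CharP.char_ne_zero_of_finite F p h)
  have : Fact p.Prime := ⟨hp⟩
  set S : Subgroup (SpecialLinearGroup F V) :=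
    MulAction.stabilizer (SpecialLinearGroup F V) (Projectivization.mk F x₀ h0) with hSdef
  have hSm : ∀ g, g ∈ S ↔ ∃ c : F, g x₀ = c • x₀ := B3_stab h0
  have : Nontrivial (Projectivization F V) := by
    have h1 : ∃ y : V, y ∉ Submodule.span F {x₀} := by
      by_contra hcon
      push Not at hcon
      have h2 : Submodule.span F {x₀} = ⊤ := by
        rw [Submodule.eq_top_iff']
        exact hcon
      have h3 := finrank_span_singleton (K := F) h0
      rw [h2, finrank_top] at h3
      omega
    obtain ⟨y, hy⟩ := h1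
    have hy0 : y ≠ 0 := fun h => hy (h ▸ Submodule.zero_mem _)
    refine ⟨Projectivization.mk F x₀ h0, Projectivization.mk F y hy0, fun h => ?_⟩
    rw [eq_comm, Projectivization.mk_eq_mk_iff'] at h
    obtain ⟨a, ha⟩ := h
    exact hy (Submodule.mem_span_singleton.2 ⟨a, ha⟩)
  have hScoat : IsCoatom S :=
    MulAction.IsPreprimitive.isCoatom_stabilizer_of_isPreprimitive (SpecialLinearGroup F V) _
  have hker : ∀ g, π g = 1 → g ∈ S := by
    intro g hg
    obtain ⟨c, hc⟩ := (hπ.ker g).1 hg
    exact (hSm g).2 ⟨c, hc x₀⟩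
  have hmap : ∀ g, π g ∈ S.map π → g ∈ S := by
    rintro g ⟨s, hs, hsg⟩
    have h1 : π (s⁻¹ * g) = 1 := by
      rw [map_mul, map_inv, hsg, inv_mul_cancel]
    have h2 := S.mul_mem hs (hker _ h1)
    rwa [mul_inv_cancel_left] at h2
  have hcoat : IsCoatom (S.map π) := by
    refine ⟨fun h => hScoat.1 ?_, fun C hC => ?_⟩
    · rw [eq_top_iff]
      intro g _
      exact hmap g (h ▸ Subgroup.mem_top _)
    · have h1 : S < C.comap π := by
        refine lt_of_le_of_ne (fun g hg => hC.le (Subgroup.mem_map_of_mem π hg)) fun h => ?_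
        apply hC.ne
        rw [h]
        exact Subgroup.map_comap_eq_self_of_surjective hπ.surj C
      have h2 := hScoat.2 _ h1
      rw [← Subgroup.map_comap_eq_self_of_surjective hπ.surj C, h2]
      exact Subgroup.map_top_of_surjective π hπ.surj
  have hinj : Function.Injective (π.comp (B3_tau F x₀)) := by
    rw [injective_iff_map_eq_one]
    intro f hf
    obtain ⟨c, hc⟩ := (hπ.ker _).1 hf
    have h1 := hc x₀
    rw [B3_tau_apply, B3_mem.1 (Multiplicative.toAdd f).2, zero_smul, add_zero] at h1
    have hc1 : c = 1 := by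
      have h2 : (c - 1) • x₀ = 0 := by rw [sub_smul, one_smul, ← h1, sub_self]
      rcases smul_eq_zero.1 h2 with h3 | h3
      · exact sub_eq_zero.1 h3
      · exact absurd h3 h0
    have h4 : (Multiplicative.toAdd f).1 = 0 := by
      ext x
      have h5 := hc x
      rw [B3_tau_apply, hc1, one_smul, add_eq_left] at h5
      rcases smul_eq_zero.1 h5 with h6 | h6
      · exact h6
      · exact absurd h6 h0
    have h7 : Multiplicative.toAdd f = 0 := Subtype.ext h4
    exact h7
  have hncov : ¬ Cov A (S.map π) := by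
    refine not_cov_of_pgroup hA hAt (N := MonoidHom.range (G := Multiplicative (B3_W F x₀)) (π.comp (B3_tau F x₀))) (p := p) ?_ ?_ ?_ ?_
    · rintro _ ⟨f, rfl⟩
      refine Subgroup.mem_map_of_mem π ((hSm _).2 ⟨1, ?_⟩)
      rw [B3_tau_apply, B3_mem.1 (Multiplicative.toAdd f).2, zero_smul, add_zero, one_smul]
    · rintro _ ⟨s, hs, rfl⟩ _ ⟨f, rfl⟩
      obtain ⟨c, hc⟩ := (hSm s).1 hs
      have hc0 : c ≠ 0 := by
        rintro rfl
        rw [zero_smul] at hc
        have h1 := B3_inv s x₀
        rw [hc] at h1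
        apply h0
        rw [← h1]
        exact map_zero (s⁻¹).val
      have hmemf : (c⁻¹ • ((Multiplicative.toAdd f).1.comp (s.val : V →ₗ[F] V))) ∈
          B3_W F x₀ := by
        rw [B3_mem]
        show c⁻¹ • (Multiplicative.toAdd f).1 (s x₀) = 0
        rw [hc, map_smul, B3_mem.1 (Multiplicative.toAdd f).2, smul_zero, smul_zero]
      refine ⟨Multiplicative.ofAdd ⟨_, hmemf⟩, ?_⟩
      rw [MonoidHom.comp_apply, MonoidHom.comp_apply, ← map_inv, ← map_mul, ← map_mul]
      congr 1
      ext x
      rw [B3_mul, B3_mul, B3_tau_apply, B3_tau_apply, B3_add, B3_smul, B3_inv]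
      show x + (c⁻¹ • (Multiplicative.toAdd f).1 (s x)) • x₀ = _
      have h2 : s⁻¹ x₀ = c⁻¹ • x₀ := by
        have h3 := B3_inv s x₀
        rw [hc, B3_smul] at h3
        rw [← h3, smul_smul, inv_mul_cancel₀ hc0, one_smul]
        rw [h3]
      rw [h2, smul_smul, smul_eq_mul, mul_comm]
    · rintro ⟨_, f, rfl⟩
      refine ⟨1, ?_⟩
      apply Subtype.ext
      show (π.comp (B3_tau F x₀)) f ^ p ^ 1 = 1
      rw [← map_pow, pow_one]
      have h1 : f ^ p = 1 := by
        have h2 : p • (Multiplicative.toAdd f) = 0 := by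
          rw [← Nat.cast_smul_eq_nsmul F, CharP.cast_eq_zero, zero_smul]
        exact h2
      rw [h1, map_one]
    · have h1 : Nat.card (MonoidHom.range (G := Multiplicative (B3_W F x₀))
          (π.comp (B3_tau F x₀))) = Nat.card (B3_W F x₀) := by
        have e := (MonoidHom.ofInjective (G := Multiplicative (B3_W F x₀))
          (f := π.comp (B3_tau F x₀)) hinj).toEquiv
        rw [← Nat.card_congr e]
        exact Nat.card_congr Multiplicative.toAdd
      rw [h1]
      exact B3_card h0 hn hp
  obtain ⟨y, hy⟩ := le_conj_of_coatom hA hcoat hncov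
  obtain ⟨h, rfl⟩ := hπ.surj y
  refine ⟨h⁻¹ x₀, ?_, fun g hg => ?_⟩
  · intro h1
    apply h0
    have h2 := B3_inv h⁻¹ x₀
    rw [h1, inv_inv] at h2
    rw [← h2]
    exact map_zero h.val
  · have h1 := mem_conj.1 (hy hg)
    rw [← map_inv, ← map_mul, ← map_mul] at h1
    obtain ⟨c, hc⟩ := (hSm _).1 (hmap _ h1)
    refine ⟨c, ?_⟩
    rw [B3_mul, B3_mul] at hc
    have h2 := B3_inv h (g (h⁻¹ x₀))
    rw [hc, B3_smul] at h2
    exact h2.symm

/-! ### Row lin-B4 -/

theorem B4_scal (g : SpecialLinearGroup F V) (h : ∃ c : F, ∀ x : V, g x = c • x) :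
    ∃ c : F, ∀ x : V, g⁻¹ x = c • x := by
  obtain ⟨c, hc⟩ := h
  refine ⟨c⁻¹, fun x => ?_⟩
  have h1 : g (g⁻¹ x) = x := LinearEquiv.apply_symm_apply g.val x
  have h2 : c • g⁻¹ x = x := by rw [← hc, h1]
  by_cases h0 : c = 0
  · have hz : ∀ y : V, y = 0 := by
      intro y
      have h3 : g (g⁻¹ y) = y := LinearEquiv.apply_symm_apply g.val y
      rw [hc, h0, zero_smul] at h3
      exact h3.symm
    rw [hz (g⁻¹ x), hz x, smul_zero]
  · rw [← h2, smul_smul, inv_mul_cancel₀ h0, one_smul, h2]

/-- `g ↦ (g⁻¹)^*` as a homomorphism. -/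
noncomputable def B4_dual (F V : Type*) [Field F] [AddCommGroup V] [Module F V]
    [FiniteDimensional F V] : SpecialLinearGroup F V →* SpecialLinearGroup F (Dual F V) where
  toFun g := SpecialLinearGroup.dualMap g⁻¹
  map_one' := by
    apply SpecialLinearGroup.ext
    intro f
    apply LinearMap.ext
    intro x
    rfl
  map_mul' a b := by
    apply SpecialLinearGroup.ext
    intro f
    apply LinearMap.ext
    intro x
    rw [mul_inv_rev]
    rfl

theorem B4_dual_apply (g : SpecialLinearGroup F V) (f : Dual F V) (x : V) :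
    (B4_dual F V g f) x = f (g⁻¹ x) := rfl

theorem B4_inj : Function.Injective (B4_dual F V) := by
  rw [injective_iff_map_eq_one]
  intro g hg
  have h1 : ∀ x : V, g⁻¹ x = x := by
    intro x
    rw [← sub_eq_zero]
    rw [← Module.forall_dual_apply_eq_zero_iff F]
    intro f
    rw [map_sub, ← B4_dual_apply, hg, sub_eq_zero]
    rfl
  have h2 : g⁻¹ = 1 := by
    apply SpecialLinearGroup.ext
    intro x
    exact h1 x
  exact inv_eq_one.mp h2

theorem B4_surj : Function.Surjective (B4_dual F V) := by
  intro g'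
  refine ⟨(SpecialLinearGroup.congr_linearEquiv (Module.evalEquiv F V).symm
    (SpecialLinearGroup.dualMap g'))⁻¹, ?_⟩
  apply SpecialLinearGroup.ext
  intro f
  apply LinearMap.ext
  intro x
  rw [B4_dual_apply, inv_inv, SpecialLinearGroup.congr_linearEquiv_apply_apply]
  have h1 : ∀ y : V, f y = (Module.evalEquiv F V y) f := fun y => rfl
  rw [h1, LinearEquiv.apply_symm_apply, LinearEquiv.symm_symm]
  rfl

/-- A `G`-permutable `A ≠ G` fixes a hyperplane: `exists_fixed_point` for the dual space and
`π' g' = π g`, `g' = (g⁻¹)^*` (`SpecialLinearGroup.dualMap`; one needs the isomorphism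
`SL(V) ≃* SL(V^*)`, `g ↦ (g⁻¹)^*`). -/
theorem exists_fixed_dual [IsSimpleGroup G] (hπ : IsProj π) (hn : 3 ≤ finrank F V)
    (hA : GPermutable A) (hAt : A ≠ ⊤) :
    ∃ f : Dual F V, f ≠ 0 ∧ ∀ g, π g ∈ A → ∃ c : F, ∀ x, f (g x) = c * f x := by
  let D : SpecialLinearGroup F V ≃* SpecialLinearGroup F (Dual F V) :=
    MulEquiv.ofBijective (B4_dual F V) ⟨B4_inj, B4_surj⟩
  have hD : ∀ (g : SpecialLinearGroup F V) (f : Dual F V) (x : V), (D g f) x = f (g⁻¹ x) :=
    fun g f x => rfl
  have hπ' : IsProj (π.comp D.symm.toMonoidHom) := by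
    refine ⟨fun y => ?_, fun g' => ?_⟩
    · obtain ⟨g, hg⟩ := hπ.surj y
      exact ⟨D g, by simp [hg]⟩
    · obtain ⟨g, rfl⟩ := D.surjective g'
      have h1 : (π.comp D.symm.toMonoidHom) (D g) = π g := by simp
      rw [h1, hπ.ker]
      constructor
      · intro h
        obtain ⟨c, hc⟩ := B4_scal g h
        refine ⟨c, fun f => ?_⟩
        apply LinearMap.ext
        intro x
        rw [hD, hc, map_smul, LinearMap.smul_apply]
      · rintro ⟨c, hc⟩
        have h2 : ∃ c : F, ∀ x : V, g⁻¹ x = c • x := by
          refine ⟨c, fun x => ?_⟩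
          rw [← sub_eq_zero, ← Module.forall_dual_apply_eq_zero_iff F]
          intro f
          rw [map_sub, ← hD, hc, LinearMap.smul_apply, map_smul, sub_self]
        have h3 := B4_scal g⁻¹ h2
        rwa [inv_inv] at h3
  have hn' : 3 ≤ finrank F (Dual F V) := by
    rw [Subspace.dual_finrank_eq]
    exact hn
  obtain ⟨f, hf, h⟩ := exists_fixed_point hπ' hn' hA hAt
  refine ⟨f, hf, fun g hg => ?_⟩
  have h1 : (π.comp D.symm.toMonoidHom) (D g⁻¹) = (π g)⁻¹ := by simp
  obtain ⟨c, hc⟩ := h (D g⁻¹) (by rw [h1]; exact A.inv_mem hg)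
  refine ⟨c, fun x => ?_⟩
  have h2 := hD g⁻¹ f x
  rw [hc, inv_inv] at h2
  rw [← h2]
  rfl

end Pool.Agent.Lib.MP_8f3271_al
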