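import Mathlib

/-!
# A linear map which commutes with inversion up to scalars is a field automorphism

`E/F` is an extension of finite fields of degree `≥ 3`, `q = |F|`.
-/

set_option autoImplicit false

open Module

namespace Pool.Agent.Lib.MP_8f3271_al

variable {F E : Type*} [Field F] [Finite F] [Field E] [Algebra F E] [FiniteDimensional F E]

/-! ### Row lin-H1 -/

/-- Every `F`-linear map is a combination of automorphisms: they are independent over `E`
(`linearIndependent_toLinearMap`), their number is `finrank F E` and this is the `E`-dimension of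
`E →ₗ[F] E`. -/
theorem exists_coeff (g : E →ₗ[F] E) : ∃ a : (E ≃ₐ[F] E) → E, ∀ x, g x = ∑ σ, a σ * σ x := by
  have hfin : Finite E := Module.finite_of_finite F
  have hli : LinearIndependent E (fun σ : E ≃ₐ[F] E => (σ : E →ₐ[F] E).toLinearMap) :=
    (linearIndependent_toLinearMap F E E).comp (fun σ : E ≃ₐ[F] E => (σ : E →ₐ[F] E))
      AlgEquiv.coe_toAlgHom_injective
  have hcard : Fintype.card (E ≃ₐ[F] E) = finrank E (E →ₗ[F] E) := by
    rw [finrank_linearMap_self F E E, ← Nat.card_eq_fintype_card]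
    exact IsGalois.card_aut_eq_finrank F E
  have hspan := hli.span_eq_top_of_card_eq_finrank hcard
  have hg : g ∈ Submodule.span E
      (Set.range fun σ : E ≃ₐ[F] E => (σ : E →ₐ[F] E).toLinearMap) := by
    rw [hspan]; exact Submodule.mem_top
  rw [Submodule.mem_span_range_iff_exists_fun] at hg
  obtain ⟨a, ha⟩ := hg
  refine ⟨a, fun x => ?_⟩
  rw [← ha, LinearMap.sum_apply]
  rfl

/-! ### Row lin-H2 -/

/-- Uniqueness of sums of two powers. -/
theorem H2_two_aux {q i l k j : ℕ} (hq : 2 ≤ q) (h : q ^ i + q ^ l = q ^ k + q ^ j) (hil : i ≤ l)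
    (hkj : k ≤ j) : i = k ∧ l = j := by
  have hlt : ∀ {i l k j : ℕ}, q ^ i + q ^ l = q ^ k + q ^ j → i ≤ l → ¬ l < j := by
    intro i l k j h hil hlj
    have h1 : q ^ i ≤ q ^ l := Nat.pow_le_pow_right (by omega) hil
    have h2 : q ^ (l + 1) ≤ q ^ j := Nat.pow_le_pow_right (by omega) hlj
    have h3 : 2 * q ^ l ≤ q ^ (l + 1) := by
      rw [pow_succ, mul_comm]; exact Nat.mul_le_mul_left _ hq
    have h4 : 0 < q ^ k := Nat.pow_pos (by omega)
    omega
  have hlj : l = j := by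
    have h1 := hlt h hil
    have h2 := hlt h.symm hkj
    omega
  subst hlj
  exact ⟨Nat.pow_right_injective hq (by simpa using h), rfl⟩

theorem H2_two {q i l k j : ℕ} (hq : 2 ≤ q) (h : q ^ i + q ^ l = q ^ k + q ^ j) (hij : i ≠ j) :
    i = k ∧ j = l := by
  rcases le_total i l with hil | hil <;> rcases le_total k j with hkj | hkj
  · have := H2_two_aux hq h hil hkj
    exact ⟨this.1, this.2.symm⟩
  · have := H2_two_aux hq (h.trans (add_comm _ _)) hil hkj
    omega
  · have := H2_two_aux hq ((add_comm _ _).trans h) hil hkj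
    omega
  · have := H2_two_aux hq (((add_comm _ _).trans h).trans (add_comm _ _)) hil hkj
    omega

/-- The case of difference `v`. -/
theorem H2_noV {q n i l k j : ℕ} (hq : 2 ≤ q) (hn : 3 ≤ n) (hi : i < n) (hl : l < n) :
    q ^ i + q ^ l ≠ (∑ m ∈ Finset.range n, q ^ m) + (q ^ k + q ^ j) := by
  intro h
  obtain ⟨N, rfl⟩ : ∃ N, n = N + 3 := ⟨n - 3, by omega⟩
  rw [Finset.sum_range_succ, Finset.sum_range_succ, Finset.sum_range_succ'] at h
  have hA : ∑ m ∈ Finset.range N, q ^ (m + 1) = q * ∑ m ∈ Finset.range N, q ^ m := by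
    rw [Finset.mul_sum]; exact Finset.sum_congr rfl fun m _ => by rw [pow_succ, mul_comm]
  rw [hA] at h
  set S := ∑ m ∈ Finset.range N, q ^ m with hS
  have hk : 0 < q ^ k := Nat.pow_pos (by omega)
  have hj : 0 < q ^ j := Nat.pow_pos (by omega)
  have hgs : (q - 1) * S + 1 = q ^ N := by
    have h1 := Nat.geomSum_eq hq N
    have h2 : (q - 1) * S = q ^ N - 1 := by
      rw [hS, h1]
      exact Nat.mul_div_cancel' (by simpa using Nat.sub_dvd_pow_sub_pow q 1 N)
    have h3 : 0 < q ^ N := Nat.pow_pos (by omega)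
    omega
  have hii : ¬ i ≤ N + 1 := by
    intro hi'
    have h1 : q ^ i ≤ q ^ (N + 1) := Nat.pow_le_pow_right (by omega) hi'
    have h2 : q ^ l ≤ q ^ (N + 2) := Nat.pow_le_pow_right (by omega) (by omega)
    omega
  have hll : ¬ l ≤ N + 1 := by
    intro hi'
    have h1 : q ^ l ≤ q ^ (N + 1) := Nat.pow_le_pow_right (by omega) hi'
    have h2 : q ^ i ≤ q ^ (N + 2) := Nat.pow_le_pow_right (by omega) (by omega)
    omega
  have hi2 : i = N + 2 := by omega
  have hl2 : l = N + 2 := by omega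
  subst hi2
  subst hl2
  have e1 : q ^ (N + 1) = q * q ^ N := by rw [pow_succ, mul_comm]
  have e2 : q ^ (N + 2) = q * (q * q ^ N) := by rw [pow_succ, mul_comm, e1]
  rw [e2, e1, pow_zero] at h
  set B := q ^ N with hB
  have hBpos : 0 < B := Nat.pow_pos (by omega)
  have h5 : q * (q * B) = q * S + 1 + q * B + (q ^ k + q ^ j) := by omega
  by_cases hq2 : q = 2
  · subst hq2
    simp only [Nat.add_one_sub_one, one_mul] at hgs
    omega
  · have hq3 : 3 ≤ q := by omega
    have hd : q ∣ 1 + (q ^ k + q ^ j) := by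
      have h6 : q ∣ (q * S + q * B) + (1 + (q ^ k + q ^ j)) := by
        have : (q * S + q * B) + (1 + (q ^ k + q ^ j)) = q * (q * B) := by omega
        rw [this]; exact Dvd.intro _ rfl
      exact (Nat.dvd_add_right (Dvd.intro _ (by ring : q * (S + B) = _))).1 h6
    rcases Nat.eq_zero_or_pos k with hk0 | hk0 <;> rcases Nat.eq_zero_or_pos j with hj0 | hj0
    · subst hk0; subst hj0
      have hq3' : q = 3 := by
        have := Nat.le_of_dvd (by omega) hd
        simp at this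
        omega
      rw [hq3'] at hgs h5
      simp only [pow_zero] at h5
      omega
    · subst hk0
      have h7 : q ∣ q ^ j := dvd_pow_self q (by omega)
      have h8 : q ∣ 2 := by
        have : 1 + (q ^ 0 + q ^ j) = 2 + q ^ j := by rw [pow_zero]; ring
        rw [this] at hd
        exact (Nat.dvd_add_left h7).1 hd
      have := Nat.le_of_dvd (by omega) h8
      omega
    · subst hj0
      have h7 : q ∣ q ^ k := dvd_pow_self q (by omega)
      have h8 : q ∣ 2 := by
        have : 1 + (q ^ k + q ^ 0) = 2 + q ^ k := by rw [pow_zero]; ring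
        rw [this] at hd
        exact (Nat.dvd_add_left h7).1 hd
      have := Nat.le_of_dvd (by omega) h8
      omega
    · have h7 : q ∣ q ^ k + q ^ j := dvd_add (dvd_pow_self q (by omega)) (dvd_pow_self q (by omega))
      have h8 : q ∣ 1 := (Nat.dvd_add_left h7).1 hd
      have := Nat.le_of_dvd (by omega) h8
      omega

theorem H2_arith {q n i l k j : ℕ} (hq : 2 ≤ q) (hn : 3 ≤ n) (hi : i < n) (hl : l < n)
    (hk : k < n) (hj : j < n) (hij : i ≠ j)
    (h : (q - 1) * (q ^ i + q ^ l) ≡ (q - 1) * (q ^ k + q ^ j) [MOD q ^ n - 1]) :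
    i = k ∧ j = l := by
  have hv : q ^ n - 1 = (q - 1) * ∑ m ∈ Finset.range n, q ^ m := by
    rw [Nat.geomSum_eq hq]
    exact (Nat.mul_div_cancel' (by simpa using Nat.sub_dvd_pow_sub_pow q 1 n)).symm
  rw [hv] at h
  have h' : q ^ i + q ^ l ≡ q ^ k + q ^ j [MOD ∑ m ∈ Finset.range n, q ^ m] :=
    Nat.ModEq.mul_left_cancel' (by omega) h
  set v := ∑ m ∈ Finset.range n, q ^ m with hvdef
  have hbig : ∀ {a : ℕ}, a < n → q ^ a < v := by
    intro a ha
    have h1 : q ^ a ≤ q ^ (n - 1) := Nat.pow_le_pow_right (by omega) (by omega)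
    obtain ⟨N, rfl⟩ : ∃ N, n = N + 2 := ⟨n - 2, by omega⟩
    have h2 : v = ∑ m ∈ Finset.range N, q ^ m + q ^ N + q ^ (N + 1) := by
      rw [hvdef, Finset.sum_range_succ, Finset.sum_range_succ]
    have h3 : 0 < q ^ N := Nat.pow_pos (by omega)
    have h4 : N + 2 - 1 = N + 1 := rfl
    rw [h4] at h1
    omega
  have main : ∀ {a b : ℕ}, a < 2 * v → a ≤ 2 * v → b < a → a ≡ b [MOD v] → 0 < b → a = v + b := by
    intro a b h1 h1' h2 h3 h4
    have h5 : v ∣ a - b := (Nat.modEq_iff_dvd' h2.le).1 h3.symm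
    obtain ⟨t, ht⟩ := h5
    have ht1 : t < 2 := by
      by_contra hcon
      have : v * 2 ≤ v * t := Nat.mul_le_mul_left _ (by omega)
      omega
    have ht0 : t ≠ 0 := by rintro rfl; omega
    have : t = 1 := by omega
    subst this
    omega
  have pi := hbig hi
  have pl := hbig hl
  have pk := hbig hk
  have pj := hbig hj
  have zi : 0 < q ^ i := Nat.pow_pos (by omega)
  have zk : 0 < q ^ k := Nat.pow_pos (by omega)
  rcases lt_trichotomy (q ^ i + q ^ l) (q ^ k + q ^ j) with hlt | heq | hgt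
  · exact absurd (main (by omega) (by omega) hlt h'.symm (by omega)) (H2_noV hq hn hk hj)
  · exact H2_two hq heq hij
  · exact absurd (main (by omega) (by omega) hgt h' (by omega)) (H2_noV hq hn hi hl)

/-- Proof. `σ x = x ^ (q ^ i)`, `τ x = x ^ (q ^ j)`, `σ' x = x ^ (q ^ k)`, `τ' x = x ^ (q ^ l)` with
`i, j, k, l < n` (`FiniteField.bijective_frobeniusAlgEquivOfAlgebraic_pow`), `i ≠ j`. Let `θ` generate `Eˣ`;
`c = θ ^ (q - 1)` has norm one (`norm (φ θ) = norm θ`), so `(q^n - 1) ∣ (q - 1)(q^i + q^l - q^k - q^j)` and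
`v = 1 + q + ... + q^(n-1)` divides `q^i + q^l - q^k - q^j`, whose absolute value is `≤ 2 (q^(n-1) - 1) < 2 v`.
If it is `0` then `i = k`, `j = l` (as `i ≠ j`). If `v + q^j + q^k = q^i + q^l` (or the same with the pairs
exchanged) then `i = l = n - 1` and `q^(n-1) - (1 + ... + q^(n-2)) = q^j + q^k`; modulo `q` this gives
`q = 2` (left side `1`) or `q = 3`, `j = k = 0`, `(3^(n-1) + 1) / 2 = 2`: impossible for `n ≥ 3`. -/
theorem char_distinct (hn : 3 ≤ finrank F E) {σ τ σ' τ' : E ≃ₐ[F] E} (hne : σ ≠ τ)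
    (h : ∀ c : E, c ≠ 0 → Algebra.norm F c = 1 → σ c * τ' c = σ' c * τ c) : σ = σ' ∧ τ = τ' := by
  classical
  have : Finite E := Module.finite_of_finite F
  have : Fintype F := Fintype.ofFinite F
  have : Fintype E := Fintype.ofFinite E
  have key : ∀ f : E ≃ₐ[F] E, ∃ i : ℕ, i < finrank F E ∧
      f = FiniteField.frobeniusAlgEquivOfAlgebraic F E ^ i := by
    intro f
    obtain ⟨⟨i, hi⟩, rfl⟩ := (FiniteField.bijective_frobeniusAlgEquivOfAlgebraic_pow F E).2 f
    exact ⟨i, hi, rfl⟩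
  have app : ∀ (i : ℕ) (x : E), (FiniteField.frobeniusAlgEquivOfAlgebraic F E ^ i) x =
      x ^ (Fintype.card F ^ i) := by
    intro i x
    rw [AlgEquiv.coe_pow, FiniteField.coe_frobeniusAlgEquivOfAlgebraic_iterate]
  obtain ⟨i, hi, rfl⟩ := key σ
  obtain ⟨j, hj, rfl⟩ := key τ
  obtain ⟨k, hk, rfl⟩ := key σ'
  obtain ⟨l, hl, rfl⟩ := key τ'
  have hij : i ≠ j := fun hh => hne (by rw [hh])
  set q := Fintype.card F with hqdef
  have hq : 2 ≤ q := Fintype.one_lt_card
  obtain ⟨θ, hθ⟩ := IsCyclic.exists_generator (α := Eˣ)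
  have hord : orderOf θ = q ^ finrank F E - 1 := by
    rw [orderOf_eq_card_of_forall_mem_zpowers hθ, Nat.card_eq_fintype_card, Fintype.card_units,
      ← Module.card_eq_pow_finrank (K := F) (V := E)]
  have hnorm : Algebra.norm F ((θ : E) ^ (q - 1)) = 1 := by
    rw [map_pow]
    exact FiniteField.pow_card_sub_one_eq_one _ (Algebra.norm_ne_zero_iff.2 θ.ne_zero)
  have h1 := h ((θ : E) ^ (q - 1)) (pow_ne_zero _ θ.ne_zero) hnorm
  simp only [app] at h1
  rw [← pow_mul, ← pow_mul, ← pow_mul, ← pow_mul, ← pow_add, ← pow_add, ← mul_add, ← mul_add] at h1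
  have h2 : θ ^ ((q - 1) * (q ^ i + q ^ l)) = θ ^ ((q - 1) * (q ^ k + q ^ j)) := by
    apply Units.ext
    rw [Units.val_pow_eq_pow_val, Units.val_pow_eq_pow_val]
    exact h1
  rw [pow_eq_pow_iff_modEq, hord] at h2
  obtain ⟨e1, e2⟩ := H2_arith hq hn hi hl hk hj hij h2
  rw [e1, e2]
  exact ⟨rfl, rfl⟩

/-! ### Row lin-H3 -/

/-- The units of norm one. -/
noncomputable def H3_C (F E : Type*) [Field F] [Field E] [Algebra F E] : Subgroup Eˣ :=
  (Units.map (Algebra.norm F : E →* F)).ker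

omit [Finite F] [FiniteDimensional F E] in
theorem H3_norm (c : H3_C F E) : Algebra.norm F ((c : Eˣ) : E) = 1 := by
  have h1 := (MonoidHom.mem_ker).1 c.2
  have h2 := congrArg (fun u : Fˣ => (u : F)) h1
  exact h2

/-- The character `c ↦ σ c / τ c`. -/
noncomputable def H3_char (σ τ : E ≃ₐ[F] E) : H3_C F E →* E where
  toFun c := σ ((c : Eˣ) : E) * (τ ((c : Eˣ) : E))⁻¹
  map_one' := by simp
  map_mul' c d := by
    simp only [Subgroup.coe_mul, Units.val_mul, map_mul, mul_inv]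
    ring

/-- The characters of `H3_char`, with the trivial one. -/
noncomputable def H3_chi : Option {p : (E ≃ₐ[F] E) × (E ≃ₐ[F] E) // p.1 ≠ p.2} → (H3_C F E →* E)
  | none => 1
  | some p => H3_char p.1.1 p.1.2

omit [Finite F] [FiniteDimensional F E] in
theorem H3_eq_of_char {σ τ σ' τ' : E ≃ₐ[F] E}
    (h : ∀ c : H3_C F E, σ ((c : Eˣ) : E) * (τ ((c : Eˣ) : E))⁻¹ =
      σ' ((c : Eˣ) : E) * (τ' ((c : Eˣ) : E))⁻¹) :
    ∀ c : E, c ≠ 0 → Algebra.norm F c = 1 → σ c * τ' c = σ' c * τ c := by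
  intro c hc hN
  have hmem : Units.mk0 c hc ∈ H3_C F E := by
    rw [H3_C, MonoidHom.mem_ker]
    ext
    exact hN
  have h1 := h ⟨Units.mk0 c hc, hmem⟩
  have h2 : σ c * (τ c)⁻¹ = σ' c * (τ' c)⁻¹ := h1
  have h3 : τ c ≠ 0 := fun h4 => hc ((map_eq_zero_iff τ τ.injective).1 h4)
  have h5 : τ' c ≠ 0 := fun h4 => hc ((map_eq_zero_iff τ' τ'.injective).1 h4)
  field_simp at h2
  linear_combination h2

theorem H3_inj (hn : 3 ≤ finrank F E) :
    Function.Injective (H3_chi (F := F) (E := E)) := by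
  have key : ∀ p : {p : (E ≃ₐ[F] E) × (E ≃ₐ[F] E) // p.1 ≠ p.2},
      H3_chi (some p) ≠ H3_chi none := by
    intro p hp
    have h1 : ∀ c : H3_C F E, p.1.1 ((c : Eˣ) : E) * (p.1.2 ((c : Eˣ) : E))⁻¹ =
        (1 : E ≃ₐ[F] E) ((c : Eˣ) : E) * ((1 : E ≃ₐ[F] E) ((c : Eˣ) : E))⁻¹ := by
      intro c
      have h2 : p.1.1 ((c : Eˣ) : E) * (p.1.2 ((c : Eˣ) : E))⁻¹ = 1 :=
        DFunLike.congr_fun hp c
      rw [h2, mul_inv_cancel₀]
      exact Units.ne_zero _
    have h3 := char_distinct hn p.2 (H3_eq_of_char h1)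
    exact p.2 (h3.1.trans h3.2.symm)
  intro a b hab
  cases a with
  | none =>
    cases b with
    | none => rfl
    | some q => exact absurd hab.symm (key q)
  | some p =>
    cases b with
    | none => exact absurd hab (key p)
    | some q =>
      have h1 : ∀ c : H3_C F E, p.1.1 ((c : Eˣ) : E) * (p.1.2 ((c : Eˣ) : E))⁻¹ =
          q.1.1 ((c : Eˣ) : E) * (q.1.2 ((c : Eˣ) : E))⁻¹ := by
        intro c
        exact DFunLike.congr_fun hab c
      have h3 := char_distinct hn p.2 (H3_eq_of_char h1)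
      congr 1
      exact Subtype.ext (Prod.ext h3.1 h3.2)

/-- The characters `c ↦ σ c / τ c`, `σ ≠ τ`, of the group of norm one units, together with the trivial
character, are different (`char_distinct`; for the trivial one take `σ' = τ'`), so they are linearly independent
(`linearIndependent_monoidHom`). -/
theorem coeff_eq_zero (hn : 3 ≤ finrank F E) (m : (E ≃ₐ[F] E) → (E ≃ₐ[F] E) → E)
    (h : ∀ c : E, c ≠ 0 → Algebra.norm F c = 1 → ∑ σ, ∑ τ, m σ τ * (σ c * (τ c)⁻¹) = 0) :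
    ∀ σ τ, σ ≠ τ → m σ τ = 0 := by
  classical
  have hli := (linearIndependent_monoidHom (H3_C F E) E).comp
    (H3_chi (F := F) (E := E)) (H3_inj hn)
  rw [Fintype.linearIndependent_iff] at hli
  let g : Option {p : (E ≃ₐ[F] E) × (E ≃ₐ[F] E) // p.1 ≠ p.2} → E := fun o =>
    match o with
    | none => ∑ σ, m σ σ
    | some p => m p.1.1 p.1.2
  have hg : ∑ o, g o • ((fun f : (H3_C F E) →* E => (f : (H3_C F E) → E)) ∘
      (H3_chi (F := F) (E := E))) o = 0 := by
    funext c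
    rw [Finset.sum_apply, Pi.zero_apply]
    have hc := h ((c : Eˣ) : E) (Units.ne_zero _) (H3_norm c)
    rw [← Finset.sum_product' (f := fun σ τ =>
      m σ τ * (σ ((c : Eˣ) : E) * (τ ((c : Eˣ) : E))⁻¹)),
      ← Finset.sum_filter_add_sum_filter_not _
      (fun p : (E ≃ₐ[F] E) × (E ≃ₐ[F] E) => p.1 ≠ p.2)] at hc
    rw [Fintype.sum_option, add_comm, ← hc]
    congr 1
    · rw [Finset.univ_product_univ]
      symm
      rw [← Finset.sum_subtype_eq_sum_filter]
      refine Finset.sum_congr ?_ fun p _ => ?_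
      · ext p
        simp
      · rfl
    · symm
      have e1 : ((Finset.univ ×ˢ Finset.univ : Finset ((E ≃ₐ[F] E) × (E ≃ₐ[F] E))).filter
          fun p => ¬ p.1 ≠ p.2) = Finset.univ.image (fun σ : E ≃ₐ[F] E => (σ, σ)) := by
        ext p
        simp only [Finset.univ_product_univ, Finset.mem_filter, Finset.mem_univ, true_and,
          Finset.mem_image, not_not]
        constructor
        · intro hp
          exact ⟨p.1, Prod.ext rfl hp⟩
        · rintro ⟨σ, rfl⟩
          rfl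
      rw [e1, Finset.sum_image (by intro a _ b _ hab; exact (Prod.ext_iff.1 hab).1)]
      have e2 : ∀ σ : E ≃ₐ[F] E,
          m σ σ * (σ ((c : Eˣ) : E) * (σ ((c : Eˣ) : E))⁻¹) = m σ σ := by
        intro σ
        have h0 : σ ((c : Eˣ) : E) ≠ 0 := by
          intro h1
          exact Units.ne_zero (c : Eˣ) ((map_eq_zero_iff σ σ.injective).1 h1)
        rw [mul_inv_cancel₀ h0, mul_one]
      rw [Finset.sum_congr rfl fun σ _ => e2 σ]
      exact (mul_one _).symm
  intro σ τ hne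
  exact hli g hg (some ⟨(σ, τ), hne⟩)

/-! ### Row lin-H4 -/

/-- The relation between the coefficients. -/
theorem H4_rel (hn : 3 ≤ finrank F E) (φ : E ≃ₐ[F] E) (g h : E ≃ₗ[F] E) (a b : (E ≃ₐ[F] E) → E)
    (ha : ∀ x, g x = ∑ σ, a σ * σ x) (hb : ∀ x, h x = ∑ σ, b σ * σ x)
    (H : ∀ c : E, c ≠ 0 → Algebra.norm F c = 1 → ∃ s : F, h c⁻¹ * g c = algebraMap F E s)
    (σ τ : E ≃ₐ[F] E) (hne : σ ≠ τ) : a (φ * σ) * b (φ * τ) = φ (a σ * b τ) := by
  classical
  have key := coeff_eq_zero hn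
    (fun σ τ => a σ * b τ - φ (a (φ⁻¹ * σ) * b (φ⁻¹ * τ))) (by
      intro c hc hnc
      obtain ⟨s, hs⟩ := H c hc hnc
      have e1 : h c⁻¹ * g c = ∑ σ : E ≃ₐ[F] E, ∑ τ : E ≃ₐ[F] E, a σ * b τ * (σ c * (τ c)⁻¹) := by
        rw [ha, hb, mul_comm, Finset.sum_mul_sum]
        refine Finset.sum_congr rfl fun σ _ => Finset.sum_congr rfl fun τ _ => ?_
        rw [map_inv₀]
        ring
      have e2 : φ (h c⁻¹ * g c) = h c⁻¹ * g c := by
        rw [hs, AlgEquiv.commutes]
      have e3 : φ (h c⁻¹ * g c) = ∑ σ : E ≃ₐ[F] E, ∑ τ : E ≃ₐ[F] E,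
          φ (a (φ⁻¹ * σ) * b (φ⁻¹ * τ)) * (σ c * (τ c)⁻¹) := by
        rw [e1, map_sum]
        refine Fintype.sum_bijective (fun σ => φ * σ) (Group.mulLeft_bijective φ) _ _ fun σ => ?_
        rw [map_sum]
        refine Fintype.sum_bijective (fun τ => φ * τ) (Group.mulLeft_bijective φ) _ _ fun τ => ?_
        rw [inv_mul_cancel_left, inv_mul_cancel_left, map_mul φ (a σ * b τ), map_mul φ (σ c),
          map_inv₀, AlgEquiv.mul_apply, AlgEquiv.mul_apply]
      calc ∑ σ : E ≃ₐ[F] E, ∑ τ : E ≃ₐ[F] E,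
            (a σ * b τ - φ (a (φ⁻¹ * σ) * b (φ⁻¹ * τ))) * (σ c * (τ c)⁻¹)
          = (∑ σ : E ≃ₐ[F] E, ∑ τ : E ≃ₐ[F] E, a σ * b τ * (σ c * (τ c)⁻¹)) -
            ∑ σ : E ≃ₐ[F] E, ∑ τ : E ≃ₐ[F] E,
              φ (a (φ⁻¹ * σ) * b (φ⁻¹ * τ)) * (σ c * (τ c)⁻¹) := by
            rw [← Finset.sum_sub_distrib]
            refine Finset.sum_congr rfl fun σ _ => ?_
            rw [← Finset.sum_sub_distrib]
            exact Finset.sum_congr rfl fun τ _ => sub_mul _ _ _
        _ = 0 := by rw [← e1, ← e3, e2, sub_self])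
    (φ * σ) (φ * τ) (fun hh => hne (mul_left_cancel hh))
  simp only [inv_mul_cancel_left] at key
  exact sub_eq_zero.1 key

/-- A third automorphism. -/
theorem H4_third (hn : 3 ≤ finrank F E) (σ σ' : E ≃ₐ[F] E) : ∃ τ : E ≃ₐ[F] E, τ ≠ σ ∧ τ ≠ σ' := by
  classical
  have : Finite E := Module.finite_of_finite F
  have : Fintype F := Fintype.ofFinite F
  have hcard : Fintype.card (E ≃ₐ[F] E) = finrank F E := by
    rw [← Fintype.card_congr (Equiv.ofBijective _
      (FiniteField.bijective_frobeniusAlgEquivOfAlgebraic_pow F E)), Fintype.card_fin]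
  obtain ⟨τ, hτ⟩ : ∃ τ : E ≃ₐ[F] E, τ ∉ ({σ, σ'} : Finset (E ≃ₐ[F] E)) := by
    by_contra hcon
    have h1 : (Finset.univ : Finset (E ≃ₐ[F] E)) ⊆ {σ, σ'} := by
      intro τ _
      by_contra h2
      exact hcon ⟨τ, h2⟩
    have h3 := Finset.card_le_card h1
    have h4 : ({σ, σ'} : Finset (E ≃ₐ[F] E)).card ≤ 2 := Finset.card_le_two
    rw [Finset.card_univ] at h3
    omega
  refine ⟨τ, ?_, ?_⟩ <;> rintro rfl <;> simp at hτ

/-- Proof. `g x = ∑ a σ * σ x`, `h x = ∑ b τ * τ x` (`exists_coeff`), `φ x = x ^ q` the Frobenius automorphism.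
`φ (h c⁻¹ * g c) = h c⁻¹ * g c` for norm one `c`, so by `coeff_eq_zero`
`a (φ σ) * b (φ τ) = φ (a σ * b τ)` for `σ ≠ τ`. Case 1: `a σ * b τ = 0` for all `σ ≠ τ`: some `a σ ≠ 0`, so
`b τ = 0` for `τ ≠ σ`, `b σ ≠ 0`, `a τ = 0` for `τ ≠ σ`, `g x = a σ * σ x`. Case 2: some `a σ * b τ ≠ 0`, `σ ≠ τ`;
applying `φ` again and again, all `a σ` and all `b τ` are nonzero; `a (φ σ) / φ (a σ) = φ (b τ) / b (φ τ)` for all
`σ ≠ τ`, and as there are at least three automorphisms this is a constant `κ`; so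
`g x = ∑ a (φ σ) * φ (σ x) = κ * φ (g x)` for all `x`, and `g x` is a root of `κ X ^ q - X`, which has at most `q`
roots; but `g` is onto and `|E| > q`. -/
theorem eq_aut_of_mul_mem (hn : 3 ≤ finrank F E) (g h : E ≃ₗ[F] E)
    (H : ∀ c : E, c ≠ 0 → Algebra.norm F c = 1 → ∃ s : F, h c⁻¹ * g c = algebraMap F E s) :
    ∃ σ : E ≃ₐ[F] E, ∀ x, g x = g 1 * σ x := by
  classical
  have : Finite E := Module.finite_of_finite F
  have : Fintype F := Fintype.ofFinite F
  obtain ⟨a, ha⟩ := exists_coeff (g : E →ₗ[F] E)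
  obtain ⟨b, hb⟩ := exists_coeff (h : E →ₗ[F] E)
  have ha' : ∀ x, g x = ∑ σ, a σ * σ x := ha
  have hb' : ∀ x, h x = ∑ σ, b σ * σ x := hb
  set φ : E ≃ₐ[F] E := FiniteField.frobeniusAlgEquivOfAlgebraic F E with hφ
  have rel := H4_rel hn φ g h a b ha' hb' H
  by_cases hc : ∀ σ τ : E ≃ₐ[F] E, σ ≠ τ → a σ * b τ = 0
  · -- Case 1
    obtain ⟨σ, hσ⟩ : ∃ σ, a σ ≠ 0 := by
      by_contra hcon
      push Not at hcon
      have h1 : g 1 = 0 := by
        rw [ha']; exact Finset.sum_eq_zero fun σ _ => by rw [hcon σ, zero_mul]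
      exact one_ne_zero (g.injective (h1.trans (map_zero g).symm))
    have hbτ : ∀ τ, τ ≠ σ → b τ = 0 := fun τ hτ =>
      (mul_eq_zero.1 (hc σ τ hτ.symm)).resolve_left hσ
    have hbσ : b σ ≠ 0 := by
      intro h0
      have h1 : h 1 = 0 := by
        rw [hb']
        refine Finset.sum_eq_zero fun τ _ => ?_
        by_cases hτ : τ = σ
        · rw [hτ, h0, zero_mul]
        · rw [hbτ τ hτ, zero_mul]
      exact one_ne_zero (h.injective (h1.trans (map_zero h).symm))
    have haτ : ∀ τ, τ ≠ σ → a τ = 0 := fun τ hτ =>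
      (mul_eq_zero.1 (hc τ σ hτ)).resolve_right hbσ
    have hg : ∀ x, g x = a σ * σ x := by
      intro x
      rw [ha']
      refine Finset.sum_eq_single σ (fun τ _ hτ => by rw [haτ τ hτ, zero_mul]) (fun h => ?_)
      exact absurd (Finset.mem_univ σ) h
    refine ⟨σ, fun x => ?_⟩
    rw [hg x, hg 1, map_one, mul_one]
  · -- Case 2
    exfalso
    push Not at hc
    obtain ⟨σ₀, τ₀, hne, h0⟩ := hc
    have hpow : ∀ k : ℕ, a (φ ^ k * σ₀) * b (φ ^ k * τ₀) ≠ 0 := by
      intro k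
      induction k with
      | zero => simpa using h0
      | succ k ih =>
        have h1 := rel (φ ^ k * σ₀) (φ ^ k * τ₀) (fun hh => hne (mul_left_cancel hh))
        rw [pow_succ', mul_assoc, mul_assoc, h1]
        exact fun h2 => ih (by simpa using h2)
    have hgen : ∀ f : E ≃ₐ[F] E, ∃ k : ℕ, f = φ ^ k := by
      intro f
      obtain ⟨⟨i, hi⟩, rfl⟩ := (FiniteField.bijective_frobeniusAlgEquivOfAlgebraic_pow F E).2 f
      exact ⟨i, rfl⟩
    have hane : ∀ σ, a σ ≠ 0 := by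
      intro σ
      obtain ⟨k, hk⟩ := hgen (σ * σ₀⁻¹)
      have h1 := left_ne_zero_of_mul (hpow k)
      rwa [← hk, inv_mul_cancel_right] at h1
    have hbne : ∀ σ, b σ ≠ 0 := by
      intro σ
      obtain ⟨k, hk⟩ := hgen (σ * τ₀⁻¹)
      have h1 := right_ne_zero_of_mul (hpow k)
      rwa [← hk, inv_mul_cancel_right] at h1
    have hAB : ∀ σ τ : E ≃ₐ[F] E, σ ≠ τ → a (φ * σ) / φ (a σ) = φ (b τ) / b (φ * τ) := by
      intro σ τ hst
      have h1 := rel σ τ hst
      rw [map_mul] at h1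
      have h2 : φ (a σ) ≠ 0 := (map_ne_zero φ).2 (hane σ)
      rw [div_eq_div_iff h2 (hbne _), h1, mul_comm]
    have hconst : ∀ σ σ' : E ≃ₐ[F] E, a (φ * σ) / φ (a σ) = a (φ * σ') / φ (a σ') := by
      intro σ σ'
      obtain ⟨τ, h1, h2⟩ := H4_third hn σ σ'
      rw [hAB σ τ h1.symm, hAB σ' τ h2.symm]
    set κ : E := a (φ * 1) / φ (a 1) with hκ
    have hrec : ∀ σ, a (φ * σ) = κ * φ (a σ) := by
      intro σ
      have h2 : φ (a σ) ≠ 0 := (map_ne_zero φ).2 (hane σ)
      rw [hκ, ← hconst σ 1, div_mul_cancel₀ _ h2]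
    have hgx : ∀ x, g x = κ * φ (g x) := by
      intro x
      have e1 : φ (g x) = ∑ σ : E ≃ₐ[F] E, φ (a σ) * (φ * σ) x := by
        rw [ha', map_sum]
        exact Finset.sum_congr rfl fun σ _ => by rw [map_mul, AlgEquiv.mul_apply]
      rw [e1, Finset.mul_sum, ha']
      symm
      refine Fintype.sum_bijective (fun σ => φ * σ) (Group.mulLeft_bijective φ) _ _ fun σ => ?_
      rw [hrec σ, mul_assoc]
    have hy : ∀ y : E, y = κ * φ y := by
      intro y
      obtain ⟨x, rfl⟩ := g.surjective y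
      exact hgx x
    have hκ1 : κ = 1 := by
      have := hy 1
      rw [map_one, mul_one] at this
      exact this.symm
    have hφ1 : φ = 1 := by
      ext y
      have := hy y
      rw [hκ1, one_mul] at this
      rw [← this, AlgEquiv.one_apply]
    have hord : orderOf φ = finrank F E := FiniteField.orderOf_frobeniusAlgEquivOfAlgebraic F E
    rw [hφ1, orderOf_one] at hord
    omega

/-! ### Row lin-H5 -/

/-- The adjoint: the forms `(x, y) ↦ Tr (β x y)` and `(x, y) ↦ Tr (β (g⁻¹ x) y)` are nondegenerate, so there is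
`h : E ≃ₗ[F] E` with `Tr (β * (g x * h y)) = Tr (β * (x * y))` for all `x, y`; then
`Tr (β * (g x * h c⁻¹)) = Tr (β * (x / c)) = s⁻¹ * Tr (β * (g x / g c))` for all `x` gives `h c⁻¹ = s⁻¹ * (g c)⁻¹`. -/
theorem exists_adjoint (g : E ≃ₗ[F] E) {β : E} (hβ : β ≠ 0)
    (H : ∀ c : E, c ≠ 0 → Algebra.norm F c = 1 → ∃ s : F, s ≠ 0 ∧
      ∀ x, Algebra.trace F E (β * (g x / g c)) = s * Algebra.trace F E (β * (x / c))) :
    ∃ h : E ≃ₗ[F] E, ∀ c : E, c ≠ 0 → Algebra.norm F c = 1 →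
      ∃ s : F, h c⁻¹ * g c = algebraMap F E s := by
  classical
  have hsep : Algebra.IsSeparable F E := inferInstance
  have hnd : (Algebra.traceForm F E).Nondegenerate := traceForm_nondegenerate F E
  let T : E ≃ₗ[F] Module.Dual F E := (Algebra.traceForm F E).toDual hnd
  have hT : ∀ z w, T z w = Algebra.trace F E (z * w) := fun z w => rfl
  let m : E ≃ₗ[F] E := (LinearEquiv.smulOfNeZero E E β hβ).restrictScalars F
  have hm : ∀ z, m z = β * z := fun z => rfl
  let h : E ≃ₗ[F] E := ((m.trans T).trans g.symm.dualMap).trans (T.symm.trans m.symm)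
  have hh : ∀ y, T (m (h y)) = g.symm.dualMap (T (m y)) := by
    intro y
    simp [h]
  have hadj : ∀ w y, Algebra.trace F E (β * h y * w) = Algebra.trace F E (β * y * g.symm w) := by
    intro w y
    have h1 := LinearMap.congr_fun (hh y) w
    rw [hT, hm] at h1
    rw [h1]
    rfl
  refine ⟨h, fun c hc hn => ?_⟩
  obtain ⟨s, hs, hs'⟩ := H c hc hn
  have hgc : g c ≠ 0 := fun h0 => hc (g.map_eq_zero_iff.1 h0)
  have key : ∀ w, Algebra.traceForm F E (β * h c⁻¹ - β * (algebraMap F E s⁻¹ * (g c)⁻¹)) w = 0 := by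
    intro w
    rw [Algebra.traceForm_apply, sub_mul, map_sub, hadj]
    have h2 := hs' (g.symm w)
    rw [g.apply_symm_apply] at h2
    have h3 : β * (algebraMap F E s⁻¹ * (g c)⁻¹) * w = s⁻¹ • (β * (w / g c)) := by
      rw [Algebra.smul_def, div_eq_mul_inv]
      ring
    have h4 : β * c⁻¹ * g.symm w = β * (g.symm w / c) := by
      rw [div_eq_mul_inv]
      ring
    rw [h3, map_smul, h2, h4, smul_eq_mul, ← mul_assoc, inv_mul_cancel₀ hs, one_mul, sub_self]
  have h5 := hnd.1 _ key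
  have h6 : h c⁻¹ = algebraMap F E s⁻¹ * (g c)⁻¹ := by
    rw [← mul_sub] at h5
    exact sub_eq_zero.1 ((mul_eq_zero.1 h5).resolve_left hβ)
  refine ⟨s⁻¹, ?_⟩
  rw [h6, mul_assoc, inv_mul_cancel₀ hgc, mul_one]

end Pool.Agent.Lib.MP_8f3271_al
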