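import Mathlib
import Pool.Agent.Lib.MP_8f3271_al.L.B
import Pool.Agent.Lib.MP_8f3271_al.L.H

/-!
# A G-permutable subgroup of PSL(V) acts by field automorphisms
-/

set_option autoImplicit false

open Pool.Agent.GPerm59 Pointwise Module

namespace Pool.Agent.Lib.MP_8f3271_al

variable {F V G E : Type*} [Field F] [Finite F] [AddCommGroup V] [Module F V] [FiniteDimensional F V]
  [Group G] [Finite G] {π : SpecialLinearGroup F V →* G} {A : Subgroup G}
  [Field E] [Algebra F E] [FiniteDimensional F E]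

/-! ### Row lin-D1 -/

omit [Finite F] [FiniteDimensional F V] [FiniteDimensional F E] in
private theorem D1_mulSL (e : V ≃ₗ[F] E) {c : E} (hc : c ≠ 0) (hn : Algebra.norm F c = 1) :
    ∃ M : SpecialLinearGroup F V, ∀ v, M v = e.symm (c * e v) := by
  set m : E ≃ₗ[F] E := (LinearEquiv.smulOfNeZero E E c hc).restrictScalars F with hm
  set f : V ≃ₗ[F] V := (e.trans m).trans e.symm with hf
  have hdet : LinearEquiv.det f = 1 := by
    apply Units.ext
    rw [LinearEquiv.coe_det, Units.val_one]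
    have h1 : (f : V →ₗ[F] V) = (e.symm : E →ₗ[F] V) ∘ₗ (m : E →ₗ[F] E) ∘ₗ
        (e.symm.symm : V →ₗ[F] E) := by
      refine LinearMap.ext fun v => ?_
      rfl
    rw [h1, LinearMap.det_conj]
    rw [Algebra.norm_apply] at hn
    rw [← hn]
    congr 1
  exact ⟨⟨f, hdet⟩, fun v => rfl⟩

/-- Proof. `e₀ : V ≃ₗ[F] E`; for `c : E` of norm one `M c = e₀⁻¹ ∘ (c * ·) ∘ e₀` is in `SL(V)` (`Algebra.norm` is the
determinant of multiplication). `B` = image in `G` of this group. `hA B` gives `x = π h`; replace `e₀` by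
`e = e₀ ∘ h`: elementwise (`perm_iff`) this says that for `π g ∈ A` and `c` of norm one there is `c'` of norm one
with `π (M c'⁻¹ * g * M c) ∈ A` (`M` formed with `e`). -/
theorem exists_singer (hπ : IsProj π) (hA : GPermutable A) (hV : finrank F V = finrank F E) :
    ∃ e : V ≃ₗ[F] E, ∀ g, π g ∈ A → ∀ c : E, c ≠ 0 → Algebra.norm F c = 1 →
      ∃ c' : E, c' ≠ 0 ∧ Algebra.norm F c' = 1 ∧ ∃ g' : SpecialLinearGroup F V, π g' ∈ A ∧
        ∀ x : E, e (g (e.symm (c * x))) = c' * e (g' (e.symm x)) := by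
  obtain ⟨e₀⟩ : Nonempty (V ≃ₗ[F] E) := ⟨LinearEquiv.ofFinrankEq V E hV⟩
  let B : Subgroup G :=
    { carrier := {y | ∃ c : E, c ≠ 0 ∧ Algebra.norm F c = 1 ∧ ∃ M : SpecialLinearGroup F V,
        (∀ v, M v = e₀.symm (c * e₀ v)) ∧ π M = y}
      mul_mem' := by
        rintro _ _ ⟨c, hc, hn, M, hM, rfl⟩ ⟨c', hc', hn', M', hM', rfl⟩
        refine ⟨c * c', mul_ne_zero hc hc', by rw [map_mul, hn, hn', one_mul], M * M',
          fun v => ?_, map_mul π M M'⟩
        change M (M' v) = _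
        rw [hM, hM', LinearEquiv.apply_symm_apply, mul_assoc]
      one_mem' := ⟨1, one_ne_zero, map_one _, 1, fun v => by
        rw [one_mul, LinearEquiv.symm_apply_apply]
        rfl, map_one π⟩
      inv_mem' := by
        rintro _ ⟨c, hc, hn, M, hM, rfl⟩
        have hni : Algebra.norm F c⁻¹ = 1 := by
          have h0 : Algebra.norm F (c * c⁻¹) = 1 := by rw [mul_inv_cancel₀ hc, map_one]
          rwa [map_mul, hn, one_mul] at h0
        refine ⟨c⁻¹, inv_ne_zero hc, hni, M⁻¹, fun v => ?_, map_inv π M⟩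
        have h1 : M (e₀.symm (c⁻¹ * e₀ v)) = v := by
          rw [hM, LinearEquiv.apply_symm_apply, ← mul_assoc, mul_inv_cancel₀ hc, one_mul,
            LinearEquiv.symm_apply_apply]
        have h2 : M⁻¹ (M (e₀.symm (c⁻¹ * e₀ v))) = e₀.symm (c⁻¹ * e₀ v) := by
          change (M⁻¹ * M) _ = _
          rw [inv_mul_cancel]
          rfl
        rw [← h2, h1] }
  have hBdef : ∀ y, y ∈ B ↔ ∃ c : E, c ≠ 0 ∧ Algebra.norm F c = 1 ∧
      ∃ M : SpecialLinearGroup F V, (∀ v, M v = e₀.symm (c * e₀ v)) ∧ π M = y := fun _ => Iff.rfl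
  obtain ⟨x, hx⟩ := hA B
  obtain ⟨h, rfl⟩ := hπ.surj x
  refine ⟨(SpecialLinearGroup.toLinearEquiv h).trans e₀, fun g hg c hc hn => ?_⟩
  obtain ⟨M, hM⟩ := D1_mulSL e₀ hc hn
  have h1 : (π h)⁻¹ * π M * π h ∈ conj B (π h) := conj_mem ((hBdef _).2 ⟨c, hc, hn, M, hM, rfl⟩)
  have h2 : π g * ((π h)⁻¹ * π M * π h) ∈ (A : Set G) * (conj B (π h) : Set G) :=
    Set.mul_mem_mul hg h1
  rw [hx] at h2
  obtain ⟨b', hb', a', ha', hba⟩ := Set.mem_mul.1 h2
  obtain ⟨c', hc', hn', M', hM', hMb⟩ := (hBdef _).1 (mem_conj.1 hb')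
  have hb : b' = (π h)⁻¹ * π M' * π h := by
    rw [hMb]
    simp [mul_assoc]
  refine ⟨c', hc', hn', h⁻¹ * M'⁻¹ * h * g * h⁻¹ * M * h, ?_, fun y => ?_⟩
  · have h3 : π (h⁻¹ * M'⁻¹ * h * g * h⁻¹ * M * h) = a' := by
      have h4 : a' = b'⁻¹ * (π g * ((π h)⁻¹ * π M * π h)) := by
        rw [← hba, inv_mul_cancel_left]
      rw [h4, hb]
      simp only [map_mul, map_inv, mul_inv_rev, inv_inv, mul_assoc]
    rw [h3]
    exact ha'
  · change e₀ (h (g (h⁻¹ (e₀.symm (c * y))))) =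
      c' * e₀ (h (h⁻¹ (M'⁻¹ (h (g (h⁻¹ (M (h (h⁻¹ (e₀.symm y))))))))))
    have hh : ∀ v, h (h⁻¹ v) = v := fun v => by
      change (h * h⁻¹) v = v
      rw [mul_inv_cancel]
      rfl
    rw [hh, hh, hM, LinearEquiv.apply_symm_apply]
    set z := h (g (h⁻¹ (e₀.symm (c * y)))) with hz
    have h5 : M' (M'⁻¹ z) = z := by
      change (M' * M'⁻¹) z = z
      rw [mul_inv_cancel]
      rfl
    have h6 := hM' (M'⁻¹ z)
    rw [h5] at h6
    rw [h6, LinearEquiv.apply_symm_apply, ← h6]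

/-! ### Row lin-D2 -/

/-- Proof. `x₀`, `f` from `exists_fixed_point`, `exists_fixed_dual`; `u = e x₀`, `f (e.symm x) = Tr (β x)`, `β ≠ 0`.
For `π g ∈ A` let `g₁ z = u⁻¹ * e (g (e.symm (u * z)))`. For `c` of norm one, with `c'`, `g'` as in `exists_singer`,
`e (g' (e.symm u)) = s₀ u` and `Tr (β e (g' (e.symm x))) = s' Tr (β x)`, `s₀, s' ∈ F` nonzero. Hence
`g₁ c = s₀ c'`, and `Tr (β c'⁻¹ e (g (e.symm (c x)))) = s' Tr (β x)`; with `x = u z` and `e (g (e.symm (c u z))) = u g₁ (c z)`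
this is `Tr (β u (g₁ (c z) / g₁ c)) = (s' / s₀) Tr (β u z)`. By `exists_adjoint` and `eq_aut_of_mul_mem`
`g₁ x = g₁ 1 * σ x`, and `g₁ 1 ∈ F`. Take `φ x = u⁻¹ * e x`. -/
theorem exists_form [IsSimpleGroup G] (hπ : IsProj π) (hA : GPermutable A) (hAt : A ≠ ⊤)
    (hV : finrank F V = finrank F E) (hn : 3 ≤ finrank F V) :
    ∃ φ : V ≃ₗ[F] E, ∀ g, π g ∈ A → ∃ (μ : F) (σ : E ≃ₐ[F] E), ∀ x, φ (g x) = μ • σ (φ x) := by
  have : Finite E := Module.finite_of_finite F
  obtain ⟨x₀, hx₀, hx₀A⟩ := exists_fixed_point hπ hn hA hAt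
  obtain ⟨f, hf, hfA⟩ := exists_fixed_dual hπ hn hA hAt
  obtain ⟨e, he⟩ := exists_singer hπ hA hV
  have hu : e x₀ ≠ 0 := fun h => hx₀ (e.map_eq_zero_iff.1 h)
  -- the trace form
  obtain ⟨β, hβ⟩ : ∃ β : E, ∀ x, f (e.symm x) = Algebra.trace F E (β * x) := by
    refine ⟨((Algebra.traceForm F E).toDual (traceForm_nondegenerate F E)).symm
      (f ∘ₗ (e.symm : E →ₗ[F] V)), fun x => ?_⟩
    have h1 := LinearMap.BilinForm.apply_toDual_symm_apply (B := Algebra.traceForm F E)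
      (hB := traceForm_nondegenerate F E) (f ∘ₗ (e.symm : E →ₗ[F] V)) x
    rw [Algebra.traceForm_apply] at h1
    rw [h1]
    rfl
  have hβ0 : β ≠ 0 := by
    rintro rfl
    apply hf
    ext x
    have h1 := hβ (e x)
    rw [e.symm_apply_apply, zero_mul, map_zero] at h1
    rw [h1, LinearMap.zero_apply]
  -- multiplication by `u`
  obtain ⟨m, hm⟩ : ∃ m : E ≃ₗ[F] E, ∀ x, m x = e x₀ * x :=
    ⟨(LinearEquiv.smulOfNeZero E E (e x₀) hu).restrictScalars F, fun x => rfl⟩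
  have hms : ∀ x, m.symm x = (e x₀)⁻¹ * x := by
    intro x
    rw [LinearEquiv.symm_apply_eq, hm, mul_inv_cancel_left₀ hu]
  refine ⟨e.trans m.symm, fun g hg => ?_⟩
  obtain ⟨g₁, hg₁⟩ : ∃ g₁ : E ≃ₗ[F] E, ∀ z, g₁ z = (e x₀)⁻¹ * e (g (e.symm (e x₀ * z))) :=
    ⟨(m.trans e.symm).trans ((g.1.trans e).trans m.symm), fun z => by
      simp only [LinearEquiv.trans_apply, hms, hm]⟩
  have hkey : ∀ c : E, c ≠ 0 → Algebra.norm F c = 1 → ∃ s : F, s ≠ 0 ∧
      ∀ x, Algebra.trace F E ((β * e x₀) * (g₁ x / g₁ c)) =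
        s * Algebra.trace F E ((β * e x₀) * (x / c)) := by
    intro c hc hc1
    obtain ⟨c', hc', -, g', hg', hgg⟩ := he g hg c hc hc1
    obtain ⟨s₀, hs₀⟩ := hx₀A g' hg'
    obtain ⟨s', hs'⟩ := hfA g' hg'
    have h1 : g₁ c = c' * algebraMap F E s₀ := by
      rw [hg₁, mul_comm (e x₀) c, hgg, e.symm_apply_apply, hs₀, map_smul, Algebra.smul_def]
      field_simp
    have h2 : g₁ c ≠ 0 := fun h => hc (g₁.map_eq_zero_iff.1 h)
    have hs0 : s₀ ≠ 0 := by
      rintro rfl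
      rw [map_zero, mul_zero] at h1
      exact h2 h1
    have hs'0 : s' ≠ 0 := by
      rintro rfl
      apply hf
      ext x
      have h3 : f (g'.1 (g'.1.symm x)) = 0 * f (g'.1.symm x) := hs' (g'.1.symm x)
      rw [LinearEquiv.apply_symm_apply, zero_mul] at h3
      rw [h3, LinearMap.zero_apply]
    have hs0' : algebraMap F E s₀ ≠ 0 := (map_ne_zero _).2 hs0
    refine ⟨s' / s₀, div_ne_zero hs'0 hs0, fun x => ?_⟩
    have h3 : Algebra.trace F E (β * e (g' (e.symm (e x₀ * (x / c))))) =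
        s' * Algebra.trace F E (β * (e x₀ * (x / c))) := by
      rw [← hβ, e.symm_apply_apply, hs', hβ]
    have h4 : e (g' (e.symm (e x₀ * (x / c)))) = c'⁻¹ * (e x₀ * g₁ x) := by
      have h5 := hgg (e x₀ * (x / c))
      have h6 : c * (e x₀ * (x / c)) = e x₀ * x := by field_simp
      rw [h6] at h5
      rw [hg₁, mul_inv_cancel_left₀ hu, h5, inv_mul_cancel_left₀ hc']
    have h5 : β * e x₀ * (g₁ x / g₁ c) = s₀⁻¹ • (β * e (g' (e.symm (e x₀ * (x / c))))) := by
      rw [h4, h1, Algebra.smul_def, map_inv₀]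
      field_simp
    rw [h5, map_smul, h3, smul_eq_mul, mul_assoc β (e x₀) (x / c)]
    field_simp
  obtain ⟨h, hh⟩ := exists_adjoint g₁ (mul_ne_zero hβ0 hu) hkey
  obtain ⟨σ, hσ⟩ := eq_aut_of_mul_mem (hV ▸ hn) g₁ h hh
  obtain ⟨μ, hμ⟩ := hx₀A g hg
  refine ⟨μ, σ, fun x => ?_⟩
  have h1 : g₁ 1 = algebraMap F E μ := by
    rw [hg₁, mul_one, e.symm_apply_apply, hμ, map_smul, Algebra.smul_def]
    field_simp
  have h2 := hσ ((e x₀)⁻¹ * e x)
  rw [h1, ← Algebra.smul_def, hg₁, mul_inv_cancel_left₀ hu, e.symm_apply_apply] at h2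
  simp only [LinearEquiv.trans_apply, hms]
  exact h2

/-! ### Row lin-D3 -/

omit [Finite F] [FiniteDimensional F V] in
private theorem D3_mul (g h : SpecialLinearGroup F V) (x : V) : (g * h) x = g (h x) := rfl

omit [Finite F] [FiniteDimensional F V] [Finite G] [FiniteDimensional F E] in
/-- the automorphism is determined by the class -/
private theorem D3_uniq (hπ : IsProj π) (φ : V ≃ₗ[F] E) {g g' : SpecialLinearGroup F V} {μ μ' : F}
    {σ σ' : E ≃ₐ[F] E} (h : π g = π g') (h1 : ∀ x, φ (g x) = μ • σ (φ x))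
    (h2 : ∀ x, φ (g' x) = μ' • σ' (φ x)) : σ = σ' := by
  obtain ⟨c, hc⟩ := (hπ.ker (g⁻¹ * g')).1 (by rw [map_mul, map_inv, h, inv_mul_cancel])
  have h3 : ∀ x : V, g' x = c • g x := by
    intro x
    have h4 : g ((g⁻¹ * g') x) = g' x := by
      rw [← D3_mul, mul_inv_cancel_left]
    rw [← h4, hc x]
    exact map_smul _ _ _
  have h5 : ∀ y : E, μ' • σ' y = (c * μ) • σ y := by
    intro y
    have h6 := h2 (φ.symm y)
    rw [h3, map_smul, h1, LinearEquiv.apply_symm_apply, smul_smul] at h6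
    exact h6.symm
  have h7 : μ' ≠ 0 := by
    rintro rfl
    have h8 := h2 (g'⁻¹ (φ.symm 1))
    rw [zero_smul, ← D3_mul, mul_inv_cancel] at h8
    simp at h8
  have h9 : μ' = c * μ := by
    have := h5 1
    rw [map_one, map_one] at this
    exact smul_left_injective F (one_ne_zero : (1 : E) ≠ 0) this
  ext y
  have h10 := h5 y
  rw [← h9] at h10
  exact (smul_right_injective E h7 h10).symm

/-- Proof. `μ = φ (g (φ⁻¹ 1))` and `σ` are determined by `g`, and `σ` depends only on `π g`; `π g ↦ σ` is an injective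
homomorphism of `A` into the cyclic group `E ≃ₐ[F] E` of order `finrank F E`. -/
theorem exists_generator (hπ : IsProj π) (hA : A ≠ ⊥) (φ : V ≃ₗ[F] E)
    (hφ : ∀ g, π g ∈ A → ∃ (μ : F) (σ : E ≃ₐ[F] E), ∀ x, φ (g x) = μ • σ (φ x)) :
    ∃ (g : SpecialLinearGroup F V) (μ : F) (σ : E ≃ₐ[F] E), A = Subgroup.zpowers (π g) ∧
      (∀ x, φ (g x) = μ • σ (φ x)) ∧ orderOf (π g) = orderOf σ ∧ 2 ≤ orderOf σ ∧
      orderOf σ ∣ finrank F E := by
  classical
  have : Finite E := Module.finite_of_finite F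
  choose g hg using fun a : A => hπ.surj a
  choose μ s hs using fun a : A => hφ (g a) (by rw [hg]; exact a.2)
  have hmul : ∀ a b : A, s (a * b) = s a * s b := by
    intro a b
    refine D3_uniq hπ φ (g := g (a * b)) (g' := g a * g b) (μ' := μ a * μ b) ?_ (hs _) ?_
    · rw [map_mul, hg, hg, hg, Subgroup.coe_mul]
    · intro x
      rw [D3_mul, hs, hs, map_smul, smul_smul]
      rfl
  have hinj : Function.Injective (MonoidHom.mk' s hmul) := by
    rw [injective_iff_map_eq_one]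
    intro a ha
    have ha' : s a = 1 := ha
    have h1 : π (g a) = 1 := by
      rw [hπ.ker]
      refine ⟨μ a, fun x => φ.injective ?_⟩
      rw [hs, ha', map_smul]
      rfl
    rw [hg] at h1
    exact Subtype.ext h1
  have : IsCyclic A := isCyclic_of_injective (MonoidHom.mk' s hmul) hinj
  obtain ⟨a, ha⟩ := IsCyclic.exists_generator (α := A)
  have hord : orderOf (a : G) = orderOf (s a) := by
    rw [Subgroup.orderOf_coe]
    exact (orderOf_injective (MonoidHom.mk' s hmul) hinj a).symm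
  refine ⟨g a, μ a, s a, ?_, hs a, ?_, ?_, ?_⟩
  · rw [hg]
    apply le_antisymm
    · intro x hx
      obtain ⟨n, hn⟩ := Subgroup.mem_zpowers_iff.1 (ha ⟨x, hx⟩)
      exact Subgroup.mem_zpowers_iff.2 ⟨n, by simpa using congrArg Subtype.val hn⟩
    · rw [Subgroup.zpowers_le]
      exact a.2
  · rw [hg]
    exact hord
  · rw [← hord]
    have h1 : 0 < orderOf (a : G) := orderOf_pos _
    have h2 : orderOf (a : G) ≠ 1 := by
      intro h3
      rw [orderOf_eq_one_iff] at h3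
      apply hA
      rw [Subgroup.eq_bot_iff_forall]
      intro x hx
      obtain ⟨n, hn⟩ := Subgroup.mem_zpowers_iff.1 (ha ⟨x, hx⟩)
      have := congrArg Subtype.val hn
      simpa [h3] using this.symm
    omega
  · have h1 : IsGalois F E := inferInstance
    rw [← IsGalois.card_aut_eq_finrank F E]
    exact orderOf_dvd_natCard _

end Pool.Agent.Lib.MP_8f3271_al
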