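import Mathlib
import Pool.Agent.Lib.MP_8f3271_al.L.B

/-!
# The torus of order `q^(n-1) - 1`
-/

set_option autoImplicit false

open Pool.Agent.GPerm59 Pointwise Module

namespace Pool.Agent.Lib.MP_8f3271_al

variable {F V G L : Type*} [Field F] [Finite F] [AddCommGroup V] [Module F V] [FiniteDimensional F V]
  [Group G] [Finite G] {π : SpecialLinearGroup F V →* G} {A : Subgroup G}
  [Field L] [Algebra F L] [FiniteDimensional F L]

/-! ### Row lin-T1 -/

theorem T1_arith {q m s j : ℕ} (hq : 2 ≤ q) (hm : 2 ≤ m) (hs : 1 ≤ s) (hsm : 2 * s ≤ m)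
    (hj : j ≤ m) (hj0 : 0 < j) (h : q ^ m - 1 ∣ j * (q ^ s - 1)) : False := by
  obtain ⟨t, rfl⟩ : ∃ t, m = s + t := ⟨m - s, by omega⟩
  have hst : s ≤ t := by omega
  have h1 : 2 ≤ q ^ s := le_trans hq (by simpa using Nat.pow_le_pow_right (by omega : 0 < q) hs)
  have h2 : q ^ s ≤ q ^ t := Nat.pow_le_pow_right (by omega) hst
  have h3 : 2 * t ≤ q ^ t := by
    have h4 : 2 ^ t ≤ q ^ t := Nat.pow_le_pow_left hq t
    obtain ⟨u, rfl⟩ : ∃ u, t = u + 1 := ⟨t - 1, by omega⟩
    have h5 : u < 2 ^ u := Nat.lt_two_pow_self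
    rw [pow_succ] at h4
    omega
  have h6 := Nat.le_of_dvd (Nat.mul_pos hj0 (by omega)) h
  obtain ⟨a, ha⟩ : ∃ a, q ^ s = a + 1 := ⟨q ^ s - 1, by omega⟩
  have h7 : q ^ (s + t) = (a + 1) * q ^ t := by rw [pow_add, ha]
  rw [h7, ha] at h6
  rw [ha] at h1 h2
  have h8 : j * a ≤ (s + t) * a := Nat.mul_le_mul_right a hj
  have h9 : (s + t) * a ≤ q ^ t * a := Nat.mul_le_mul_right a (by omega)
  have h10 : (a + 1) * q ^ t = q ^ t * a + q ^ t := by ring
  simp only [Nat.add_sub_cancel] at h6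
  omega

/-- Proof. `m = finrank F L`, `K = F(θ^j)`, `s = [K : F]` divides `m`, `K` has `q^s` elements, so
`(θ^j)^(q^s - 1) = 1` and `q^m - 1 ∣ j (q^s - 1)`. If `s < m` then `2 s ≤ m`,
`j ≥ (q^m - 1) / (q^s - 1) > q^(m - s) ≥ 2^(m-s) ≥ m` for `m ≥ 2` (`m - s ≥ m / 2`, `m - s ≥ 1`), a contradiction. -/
theorem adjoin_pow (hm : 2 ≤ finrank F L) {θ : L} (h0 : θ ≠ 0)
    (hθ : orderOf θ = Nat.card F ^ finrank F L - 1) {j : ℕ}
    (hj : 0 < j) (hj' : j ≤ finrank F L) : Algebra.adjoin F {θ ^ j} = ⊤ := by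
  have hfin : Finite L := Module.finite_of_finite F
  set K : IntermediateField F L := IntermediateField.adjoin F {θ ^ j} with hK
  have hKS : K.toSubalgebra = Algebra.adjoin F {θ ^ j} :=
    IntermediateField.adjoin_simple_toSubalgebra_of_isAlgebraic (Algebra.IsAlgebraic.isAlgebraic _)
  have hq : 2 ≤ Nat.card F := Finite.one_lt_card
  have hcard : Nat.card K = Nat.card F ^ finrank F K := Module.natCard_eq_pow_finrank
  have hs : 1 ≤ finrank F K := finrank_pos
  have hmul : finrank F K * finrank K L = finrank F L := finrank_mul_finrank F K L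
  have hr : 1 ≤ finrank K L := finrank_pos
  have hpow : (θ ^ j) ^ (Nat.card K - 1) = 1 := by
    have : Fintype K := Fintype.ofFinite K
    have h1 : (⟨θ ^ j, IntermediateField.mem_adjoin_simple_self F (θ ^ j)⟩ : K) ≠ 0 := by
      intro h
      exact pow_ne_zero j h0 (congrArg Subtype.val h)
    have h2 := FiniteField.pow_card_sub_one_eq_one _ h1
    rw [← Nat.card_eq_fintype_card] at h2
    exact congrArg Subtype.val h2
  have hdvd : Nat.card F ^ finrank F L - 1 ∣ j * (Nat.card F ^ finrank F K - 1) := by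
    rw [← hθ, ← hcard]
    apply orderOf_dvd_of_pow_eq_one
    rw [pow_mul]
    exact hpow
  have hr1 : finrank K L = 1 := by
    by_contra hne
    have h2 : 2 ≤ finrank K L := by omega
    have h3 : 2 * finrank F K ≤ finrank F L := by
      rw [← hmul, mul_comm]
      exact Nat.mul_le_mul_left _ h2
    exact T1_arith hq hm hs h3 hj' hj hdvd
  have hfr : finrank F K = finrank F L := by rw [← hmul, hr1, mul_one]
  have htop : K = ⊤ := by
    apply IntermediateField.eq_of_le_of_finrank_eq le_top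
    rw [hfr]
    exact IntermediateField.finrank_top'.symm
  rw [← hKS, htop, IntermediateField.top_toSubalgebra]

/-! ### Row lin-T2 -/

theorem T2_zpow {V₁ : Type*} [AddCommGroup V₁] [Module F V₁] (t : SpecialLinearGroup F V₁)
    (φ : V₁ ≃ₗ[F] (L × F)) {θ : L} {μ : F} (hθ : θ ≠ 0) (hμ : μ ≠ 0)
    (h : ∀ v, φ (t v) = (θ * (φ v).1, μ * (φ v).2)) (i : ℤ) :
    ∀ v, φ ((t ^ i : SpecialLinearGroup F V₁) v) = (θ ^ i * (φ v).1, μ ^ i * (φ v).2) := by
  induction i using Int.induction_on with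
  | zero => intro v; simp
  | succ i ih =>
    intro v
    have h1 : (t ^ ((i : ℤ) + 1) : SpecialLinearGroup F V₁) v =
        (t ^ (i : ℤ) : SpecialLinearGroup F V₁) (t v) := by
      rw [zpow_add_one]
      rfl
    rw [h1, ih, h, zpow_add_one₀ hθ, zpow_add_one₀ hμ, mul_assoc, mul_assoc]
  | pred i ih =>
    intro v
    have h1 : (t ^ (-(i : ℤ) - 1) : SpecialLinearGroup F V₁) v =
        (t ^ (-(i : ℤ)) : SpecialLinearGroup F V₁) ((t⁻¹ : SpecialLinearGroup F V₁) v) := by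
      rw [zpow_sub_one]
      rfl
    have h2 : φ ((t⁻¹ : SpecialLinearGroup F V₁) v) = (θ⁻¹ * (φ v).1, μ⁻¹ * (φ v).2) := by
      have h3 := h ((t⁻¹ : SpecialLinearGroup F V₁) v)
      have h4 : t ((t⁻¹ : SpecialLinearGroup F V₁) v) = v := by
        change (t * t⁻¹ : SpecialLinearGroup F V₁) v = v
        rw [mul_inv_cancel]
        rfl
      rw [h4] at h3
      rw [h3]
      ext
      · simp [hθ]
      · simp [hμ]
    rw [h1, ih, h2, zpow_sub_one₀ hθ, zpow_sub_one₀ hμ, mul_assoc, mul_assoc]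

theorem T2_torus (φ₀ : V ≃ₗ[F] (L × F)) {θ : L} (hθ : θ ≠ 0) :
    ∃ (t : SpecialLinearGroup F V) (μ : F), μ ≠ 0 ∧
      ∀ v, φ₀ (t v) = (θ * (φ₀ v).1, μ * (φ₀ v).2) := by
  classical
  have hN : Algebra.norm F θ ≠ 0 := by
    rw [Ne, Algebra.norm_eq_zero_iff]
    exact hθ
  have hμ : (Algebra.norm F θ)⁻¹ ≠ 0 := inv_ne_zero hN
  let e₁ : L ≃ₗ[F] L := LinearEquiv.ofBijective (Algebra.lmul F L θ)
    ⟨fun x y h => mul_left_cancel₀ hθ h, fun y => ⟨θ⁻¹ * y, mul_inv_cancel_left₀ hθ y⟩⟩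
  let e₂ : F ≃ₗ[F] F := LinearEquiv.ofBijective (Algebra.lmul F F (Algebra.norm F θ)⁻¹)
    ⟨fun x y h => mul_left_cancel₀ hμ h, fun y => ⟨(Algebra.norm F θ)⁻¹⁻¹ * y,
      mul_inv_cancel_left₀ hμ y⟩⟩
  let t₀ : (L × F) ≃ₗ[F] (L × F) := LinearEquiv.prodCongr e₁ e₂
  let t : V ≃ₗ[F] V := (φ₀.trans t₀).trans φ₀.symm
  have ht : t.det = 1 := by
    rw [← Units.val_inj, LinearEquiv.coe_det, Units.val_one]
    have h1 : (t : V →ₗ[F] V) = (φ₀.symm : (L × F) →ₗ[F] V) ∘ₗ (t₀ : (L × F) →ₗ[F] (L × F)) ∘ₗ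
        (φ₀.symm.symm : V →ₗ[F] (L × F)) := rfl
    rw [h1, LinearMap.det_conj]
    have h2 : (t₀ : (L × F) →ₗ[F] (L × F)) =
        (Algebra.lmul F L θ).prodMap (Algebra.lmul F F (Algebra.norm F θ)⁻¹) := rfl
    rw [h2, LinearMap.det_prodMap]
    have h3 : LinearMap.det (Algebra.lmul F L θ) = Algebra.norm F θ :=
      (Algebra.norm_apply F θ).symm
    have h4 : LinearMap.det (Algebra.lmul F F (Algebra.norm F θ)⁻¹) = (Algebra.norm F θ)⁻¹ := by
      rw [← Algebra.norm_apply, Algebra.norm_self]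
      rfl
    rw [h3, h4, mul_inv_cancel₀ hN]
  refine ⟨⟨t, ht⟩, (Algebra.norm F θ)⁻¹, hμ, fun v => ?_⟩
  change φ₀ (φ₀.symm (t₀ (φ₀ v))) = _
  rw [φ₀.apply_symm_apply]
  rfl

/-- Proof. `θ` generator of `Lˣ`; `t = (θ, N(θ)⁻¹)` acts on `L × F` with determinant `1`. `B` = subgroup of `G`
generated by the image of `t` (transported to `V`); `hA B` gives `x = π h`; conjugate, and apply `cyc_prod`. With
`α = θ^j`, `ν = N(θ)^(-j)`: `φ g φ⁻¹ (α, ν) φ g⁻¹ φ⁻¹ = ζ (α^k, ν^k)`, where `j < e ≤ finrank F L + 1`; `adjoin_pow`. -/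
theorem exists_torus (hπ : IsProj π) (hA : GPermutable A) (g : SpecialLinearGroup F V)
    (hg : A = Subgroup.zpowers (π g)) (he : 2 ≤ orderOf (π g)) (he' : orderOf (π g) ≤ finrank F L + 1)
    (hV : finrank F V = finrank F L + 1) (hm : 2 ≤ finrank F L) :
    ∃ (φ : V ≃ₗ[F] (L × F)) (α : L) (ν ζ : F) (k : ℤ), Algebra.adjoin F {α} = ⊤ ∧ α ≠ 0 ∧ ν ≠ 0 ∧
      ζ ≠ 0 ∧ ∀ (x : L) (y : F), φ (g (φ.symm (α * x, ν * y))) =
        (algebraMap F L ζ * α ^ k * (φ (g (φ.symm (x, y)))).1,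
          ζ * ν ^ k * (φ (g (φ.symm (x, y)))).2) := by
  classical
  have hfinL : Finite L := Module.finite_of_finite F
  let φ₀ : V ≃ₗ[F] (L × F) := LinearEquiv.ofFinrankEq V (L × F) (by
    rw [hV, finrank_prod, finrank_self])
  obtain ⟨θ, hθ⟩ := IsCyclic.exists_generator (α := Lˣ)
  have hθ0 : (θ : L) ≠ 0 := θ.ne_zero
  have hord : orderOf (θ : L) = Nat.card F ^ finrank F L - 1 := by
    rw [orderOf_units, orderOf_eq_card_of_forall_mem_zpowers hθ, Nat.card_units,
      Module.natCard_eq_pow_finrank (K := F)]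
  obtain ⟨t, μ, hμ, ht⟩ := T2_torus φ₀ hθ0
  obtain ⟨x, hx⟩ := hA (Subgroup.zpowers (π t))
  obtain ⟨h, rfl⟩ := hπ.surj x
  set t₁ : SpecialLinearGroup F V := h⁻¹ * t * h with ht₁
  have hconj : conj (Subgroup.zpowers (π t)) (π h) = Subgroup.zpowers (π t₁) := by
    rw [conj, MonoidHom.map_zpowers]
    congr 1
    simp [ht₁]
  rw [hg, hconj] at hx
  obtain ⟨j, hj0, hj1, hj2⟩ := cyc_prod hx he
  let φ : V ≃ₗ[F] (L × F) := (h : V ≃ₗ[F] V).trans φ₀
  have hφ : ∀ v, φ v = φ₀ (h v) := fun v => rfl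
  have hφt : ∀ v, φ (t₁ v) = ((θ : L) * (φ v).1, μ * (φ v).2) := by
    intro v
    rw [hφ, hφ]
    have : h (t₁ v) = t (h v) := by
      change (h * t₁ : SpecialLinearGroup F V) v = (t * h : SpecialLinearGroup F V) v
      rw [ht₁]
      congr 2
      group
    rw [this, ht]
  have hpow := T2_zpow t₁ φ hθ0 hμ hφt
  rw [← map_pow, ← map_inv, ← map_mul, ← map_mul, Subgroup.mem_zpowers_iff] at hj2
  obtain ⟨k, hk⟩ := hj2
  have hk' : π ((t₁ ^ ((j : ℤ) * k))⁻¹ * (g * t₁ ^ j * g⁻¹)) = 1 := by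
    rw [map_mul, ← hk, map_inv, inv_mul_eq_one, map_zpow, zpow_mul, zpow_natCast, ← map_pow]
  obtain ⟨c, hc⟩ := (hπ.ker _).1 hk'
  have hkey : ∀ w, g ((t₁ ^ (j : ℤ) : SpecialLinearGroup F V) w) =
      c • (t₁ ^ ((j : ℤ) * k) : SpecialLinearGroup F V) (g w) := by
    intro w
    have h1 := hc (g w)
    have h2 : (((t₁ ^ ((j : ℤ) * k))⁻¹ * (g * t₁ ^ j * g⁻¹) : SpecialLinearGroup F V)) (g w) =
        ((t₁ ^ ((j : ℤ) * k))⁻¹ : SpecialLinearGroup F V)
          (g ((t₁ ^ (j : ℤ) : SpecialLinearGroup F V) w)) := by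
      change (((t₁ ^ ((j : ℤ) * k))⁻¹ * (g * t₁ ^ j * g⁻¹) * g : SpecialLinearGroup F V)) w =
        ((t₁ ^ ((j : ℤ) * k))⁻¹ * (g * t₁ ^ (j : ℤ)) : SpecialLinearGroup F V) w
      congr 2
      rw [zpow_natCast]
      group
    rw [h2] at h1
    have h3 := congrArg (fun v => (t₁ ^ ((j : ℤ) * k) : SpecialLinearGroup F V) v) h1
    simp only at h3
    have h4 : ∀ v, (t₁ ^ ((j : ℤ) * k) : SpecialLinearGroup F V)
        (((t₁ ^ ((j : ℤ) * k))⁻¹ : SpecialLinearGroup F V) v) = v := by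
      intro v
      change (t₁ ^ ((j : ℤ) * k) * (t₁ ^ ((j : ℤ) * k))⁻¹ : SpecialLinearGroup F V) v = v
      rw [mul_inv_cancel]
      rfl
    exact (h4 _).symm.trans
      (h3.trans (map_smul (t₁ ^ ((j : ℤ) * k) : SpecialLinearGroup F V).1 c (g w)))
  have hV0 : Nontrivial V := by
    apply Module.nontrivial_of_finrank_pos (R := F)
    omega
  have hc0 : c ≠ 0 := by
    rintro rfl
    obtain ⟨w, hw⟩ := exists_ne (0 : V)
    apply hw
    have h1 := hkey w
    rw [zero_smul] at h1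
    have h2 : (t₁ ^ (j : ℤ) : SpecialLinearGroup F V) w = 0 :=
      g.1.injective (h1.trans (map_zero g.1).symm)
    exact (t₁ ^ (j : ℤ) : SpecialLinearGroup F V).1.injective (h2.trans (map_zero _).symm)
  refine ⟨φ, (θ : L) ^ j, μ ^ j, c, k, adjoin_pow hm hθ0 hord hj0 (by omega),
    pow_ne_zero _ hθ0, pow_ne_zero _ hμ, hc0, fun x y => ?_⟩
  have h1 : φ.symm ((θ : L) ^ j * x, μ ^ j * y) =
      (t₁ ^ (j : ℤ) : SpecialLinearGroup F V) (φ.symm (x, y)) := by
    rw [LinearEquiv.symm_apply_eq, hpow, φ.apply_symm_apply, zpow_natCast, zpow_natCast]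
  rw [h1, hkey, map_smul, hpow]
  ext
  · simp only [Prod.smul_fst]
    rw [Algebra.smul_def, zpow_mul, zpow_natCast, mul_assoc]
  · simp only [Prod.smul_snd, smul_eq_mul]
    rw [zpow_mul, zpow_natCast, mul_assoc]

/-! ### Row lin-T3 -/

/-- Linear algebra: `g : L × F ≃ L × F` with `g ∘ (α, ν) = ζ (α^k, ν^k) ∘ g`, `F(α) = L`, `dim L ≥ 2`.
`0 × F = ker ((α, ν) - ν)` and `L × 0 = range ((α, ν) - ν)`, `g (0 × F) = ker (ζ (α^k, ν^k) - ν)`: this is a one
dimensional space, and the kernel of `ζ α^k - ν` on `L` is `0` or `L`, so it is `0 × F`; similarly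
`g (L × 0) = L × 0`. So `g (x, y) = (g₁ x, λ y)`, `g₁ (α x) = ζ α^k g₁ x`; the set of `a : L` for which there is `a'` with
`g₁ (a x) = a' g₁ x` for all `x` is a subalgebra, so all of `L`; `a' = g₁ a / g₁ 1`, and `τ a = g₁ a / g₁ 1` is an
automorphism. -/
theorem split_form (hm : 2 ≤ finrank F L) (g : (L × F) ≃ₗ[F] (L × F)) {α : L} {ν ζ : F} {k : ℤ}
    (hα : Algebra.adjoin F {α} = ⊤) (hα0 : α ≠ 0) (hν : ν ≠ 0) (hζ : ζ ≠ 0)
    (h : ∀ (x : L) (y : F), g (α * x, ν * y) =
      (algebraMap F L ζ * α ^ k * (g (x, y)).1, ζ * ν ^ k * (g (x, y)).2)) :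
    ∃ (δ : L) (c : F) (τ : L ≃ₐ[F] L), ∀ (x : L) (y : F), g (x, y) = (δ * τ x, c * y) := by
  have hne : α - algebraMap F L ν ≠ 0 := by
    intro h0
    have h1 : α = algebraMap F L ν := sub_eq_zero.1 h0
    have h2 : (⊤ : Subalgebra F L) = ⊥ := by
      rw [← hα, h1]
      refine le_antisymm ?_ bot_le
      rw [Algebra.adjoin_le_iff]
      intro z hz
      rw [Set.mem_singleton_iff] at hz
      rw [hz]
      exact (⊥ : Subalgebra F L).algebraMap_mem ν
    have h3 : finrank F (⊤ : Subalgebra F L) = finrank F L :=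
      (Subalgebra.topEquiv (R := F) (A := L)).toLinearEquiv.finrank_eq
    rw [h2, Subalgebra.finrank_bot] at h3
    omega
  let P : L →ₗ[F] L := (LinearMap.fst F L F).comp (g.toLinearMap.comp (LinearMap.inl F L F))
  let r : L →ₗ[F] F := (LinearMap.snd F L F).comp (g.toLinearMap.comp (LinearMap.inl F L F))
  have hP : ∀ x, P x = (g (x, 0)).1 := fun x => rfl
  have hr : ∀ x, r x = (g (x, 0)).2 := fun x => rfl
  have hPα : ∀ x, P (α * x) = algebraMap F L ζ * α ^ k * P x := by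
    intro x
    have := congrArg Prod.fst (h x 0)
    rw [mul_zero] at this
    exact this
  have hrα : ∀ x, r (α * x) = ζ * ν ^ k * r x := by
    intro x
    have := congrArg Prod.snd (h x 0)
    rw [mul_zero] at this
    exact this
  have h01 := h 0 1
  rw [mul_zero, mul_one] at h01
  have h02 : g (0, ν) = ν • g (0, 1) := by
    rw [← map_smul]
    congr 1
    ext
    · simp
    · simp
  rw [h02] at h01
  have ha' := congrArg Prod.fst h01
  have hb' := congrArg Prod.snd h01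
  simp only [Prod.smul_fst, Prod.smul_snd] at ha' hb'
  -- the first component of `g (0, 1)` vanishes
  have ha : (g (0, 1)).1 = 0 := by
    by_contra hcon
    have h1 : algebraMap F L ζ * α ^ k = algebraMap F L ν := by
      rw [Algebra.smul_def] at ha'
      exact (mul_right_cancel₀ hcon ha').symm
    have h2 : ∀ x, P x = 0 := by
      intro x
      have h3 := hPα ((α - algebraMap F L ν)⁻¹ * x)
      rw [h1, ← Algebra.smul_def, ← map_smul, Algebra.smul_def] at h3
      have h4 : P (α * ((α - algebraMap F L ν)⁻¹ * x) -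
          algebraMap F L ν * ((α - algebraMap F L ν)⁻¹ * x)) = 0 := by
        rw [map_sub, h3, sub_self]
      rw [← sub_mul, ← mul_assoc, mul_inv_cancel₀ hne, one_mul] at h4
      exact h4
    have h5 : Function.Injective r := by
      intro x y hxy
      have h6 : g (x, 0) = g (y, 0) := by
        apply Prod.ext
        · rw [← hP, ← hP, h2, h2]
        · rw [← hr, ← hr, hxy]
      exact congrArg Prod.fst (g.injective h6)
    have h7 := LinearMap.finrank_le_finrank_of_injective h5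
    rw [finrank_self] at h7
    omega
  have hb0 : (g (0, 1)).2 ≠ 0 := by
    intro hb
    have h1 : g (0, 1) = 0 := Prod.ext ha hb
    have h2 : ((0 : L), (1 : F)) = 0 := g.map_eq_zero_iff.1 h1
    exact one_ne_zero (congrArg Prod.snd h2)
  have hνk : ζ * ν ^ k = ν := by
    rw [smul_eq_mul] at hb'
    exact (mul_right_cancel₀ hb0 hb').symm
  have hr0 : ∀ x, r x = 0 := by
    intro x
    have h3 := hrα ((α - algebraMap F L ν)⁻¹ * x)
    rw [hνk, ← smul_eq_mul (a := ν), ← map_smul, Algebra.smul_def] at h3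
    have h4 : r (α * ((α - algebraMap F L ν)⁻¹ * x) -
        algebraMap F L ν * ((α - algebraMap F L ν)⁻¹ * x)) = 0 := by
      rw [map_sub, h3, sub_self]
    rw [← sub_mul, ← mul_assoc, mul_inv_cancel₀ hne, one_mul] at h4
    exact h4
  have hg : ∀ (x : L) (y : F), g (x, y) = (P x, (g (0, 1)).2 * y) := by
    intro x y
    have h1 : ((x, y) : L × F) = (x, 0) + y • (0, 1) := by
      ext
      · simp
      · simp
    rw [h1, map_add, map_smul]
    apply Prod.ext
    · simp only [Prod.fst_add, Prod.smul_fst]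
      rw [ha, smul_zero, add_zero, ← hP]
    · simp only [Prod.snd_add, Prod.smul_snd, smul_eq_mul]
      rw [← hr, hr0, zero_add, mul_comm]
  -- the algebra of the multipliers
  let S : Subalgebra F L :=
    { carrier := {a | ∃ a', ∀ x, P (a * x) = a' * P x}
      mul_mem' := by
        rintro a b ⟨a', ha'⟩ ⟨b', hb'⟩
        refine ⟨a' * b', fun x => ?_⟩
        rw [mul_assoc, ha', hb', mul_assoc]
      add_mem' := by
        rintro a b ⟨a', ha'⟩ ⟨b', hb'⟩
        refine ⟨a' + b', fun x => ?_⟩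
        rw [add_mul, map_add, ha', hb', add_mul]
      algebraMap_mem' := by
        intro c
        refine ⟨algebraMap F L c, fun x => ?_⟩
        rw [← Algebra.smul_def, map_smul, Algebra.smul_def] }
  have hS : ∀ a : L, ∃ a', ∀ x, P (a * x) = a' * P x := by
    intro a
    have h1 : Algebra.adjoin F {α} ≤ S := by
      rw [Algebra.adjoin_le_iff]
      intro z hz
      rw [Set.mem_singleton_iff] at hz
      rw [hz]
      exact ⟨_, hPα⟩
    rw [hα] at h1
    exact h1 Algebra.mem_top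
  have hP1 : P 1 ≠ 0 := by
    intro h0
    have h1 : g (1, 0) = 0 := by
      rw [hg, h0, mul_zero]; rfl
    have h2 : ((1 : L), (0 : F)) = 0 := g.map_eq_zero_iff.1 h1
    exact one_ne_zero (congrArg Prod.fst h2)
  have hmul : ∀ a x, P (a * x) * P 1 = P a * P x := by
    intro a x
    obtain ⟨a', ha'⟩ := hS a
    have h1 := ha' 1
    rw [mul_one] at h1
    rw [ha', h1]
    ring
  let T : L →ₗ[F] L := (LinearMap.mulLeft F (P 1)⁻¹).comp P
  have hT : ∀ x, T x = (P 1)⁻¹ * P x := fun x => rfl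
  let τ : L →ₐ[F] L := AlgHom.ofLinearMap T
    (by rw [hT, inv_mul_cancel₀ hP1])
    (by
      intro x y
      rw [hT, hT, hT]
      have h1 := hmul x y
      field_simp
      rw [← h1]
      ring)
  have hτb : Function.Bijective τ := by
    have h1 : Function.Injective τ := τ.toRingHom.injective
    have h2 : Function.Injective τ.toLinearMap := h1
    exact ⟨h1, LinearMap.injective_iff_surjective.1 h2⟩
  refine ⟨P 1, (g (0, 1)).2, AlgEquiv.ofBijective τ hτb, fun x y => ?_⟩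
  rw [hg]
  apply Prod.ext
  · change P x = P 1 * ((P 1)⁻¹ * P x)
    rw [← mul_assoc, mul_inv_cancel₀ hP1, one_mul]
  · rfl

/-! ### Row lin-T4 -/

/-- `τ ^ e = 1` because `g ^ e` is scalar, and the order of `τ` divides `finrank F L`, which is prime to `e`. -/
theorem aut_trivial {e : ℕ} (he : e.Coprime (finrank F L)) (g : (L × F) ≃ₗ[F] (L × F)) {δ : L} {c : F}
    {τ : L ≃ₐ[F] L} (hg : ∀ (x : L) (y : F), g (x, y) = (δ * τ x, c * y)) {s : F}
    (hs : ∀ z, (g ^ e) z = s • z) : τ = 1 := by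
  have h1 : ∀ k : ℕ, ∃ d : L, ∀ x : L, ∃ y : F, (g ^ k) (x, 0) = (d * (τ ^ k) x, y) := by
    intro k
    induction k with
    | zero => exact ⟨1, fun x => ⟨0, by simp⟩⟩
    | succ k ih =>
      obtain ⟨d, hd⟩ := ih
      refine ⟨δ * τ d, fun x => ?_⟩
      obtain ⟨y, hy⟩ := hd x
      refine ⟨c * y, ?_⟩
      rw [pow_succ', LinearEquiv.mul_apply, hy, hg, map_mul, pow_succ', AlgEquiv.mul_apply, mul_assoc]
  obtain ⟨d, hd⟩ := h1 e
  have h2 : ∀ x : L, d * (τ ^ e) x = s • x := by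
    intro x
    obtain ⟨y, hy⟩ := hd x
    have h3 := hs (x, 0)
    rw [hy] at h3
    exact congrArg Prod.fst h3
  have hs0 : s ≠ 0 := by
    rintro rfl
    have h3 := hs (1, 0)
    rw [zero_smul] at h3
    have h4 := (g ^ e).map_eq_zero_iff.1 h3
    exact one_ne_zero (congrArg Prod.fst h4)
  have h4 : d = algebraMap F L s := by
    have := h2 1
    rwa [map_one, mul_one, Algebra.smul_def, mul_one] at this
  have h5 : τ ^ e = 1 := by
    ext x
    have h6 := h2 x
    rw [h4, Algebra.smul_def] at h6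
    have h7 : algebraMap F L s ≠ 0 := by
      rwa [Ne, FaithfulSMul.algebraMap_eq_zero_iff]
    exact mul_left_cancel₀ h7 h6
  have h6 : orderOf τ ∣ e := orderOf_dvd_of_pow_eq_one h5
  have h7 : orderOf τ ∣ finrank F L := by
    have : Finite L := Module.finite_of_finite F
    rw [← IsGalois.card_aut_eq_finrank F L]
    exact orderOf_dvd_natCard τ
  have h8 := Nat.eq_one_of_dvd_coprimes he h6 h7
  exact orderOf_eq_one_iff.1 h8

/-! ### Row lin-T5 -/

/-- From `exists_torus`, `split_form` and `aut_trivial` (`e ∣ n = finrank F L + 1` is prime to `finrank F L`;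
`(π g) ^ e = 1`). -/
theorem exists_torus_form (hπ : IsProj π) (hA : GPermutable A) (g : SpecialLinearGroup F V)
    (hg : A = Subgroup.zpowers (π g)) (he : 2 ≤ orderOf (π g))
    (he' : orderOf (π g) ∣ finrank F L + 1)
    (hV : finrank F V = finrank F L + 1) (hm : 2 ≤ finrank F L) :
    ∃ (φ : V ≃ₗ[F] (L × F)) (δ : L) (c : F), ∀ x, φ (g x) = (δ * (φ x).1, c * (φ x).2) := by
  obtain ⟨φ, α, ν, ζ, k, hα, hα0, hν, hζ, h⟩ :=
    exists_torus hπ hA g hg he (Nat.le_of_dvd (Nat.succ_pos _) he') hV hm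
  have hgV : ∀ x : V, (g : V ≃ₗ[F] V) x = g x := fun _ => rfl
  let g' : (L × F) ≃ₗ[F] (L × F) := (φ.symm.trans (g : V ≃ₗ[F] V)).trans φ
  have hg' : ∀ z, g' z = φ (g (φ.symm z)) := fun _ => rfl
  obtain ⟨δ, c, τ, hform⟩ := split_form hm g' hα hα0 hν hζ (fun x y => by
    rw [hg', hg']
    exact h x y)
  have hpow : ∀ (j : ℕ) (z : L × F), (g' ^ j) z = φ ((g ^ j : SpecialLinearGroup F V) (φ.symm z)) := by
    intro j
    induction j with
    | zero =>
      intro z
      rw [pow_zero, pow_zero]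
      change z = φ (φ.symm z)
      rw [LinearEquiv.apply_symm_apply]
    | succ j ih =>
      intro z
      rw [pow_succ, pow_succ]
      change (g' ^ j) (g' z) = φ ((g ^ j : SpecialLinearGroup F V) (g (φ.symm z)))
      rw [ih, hg', LinearEquiv.symm_apply_apply]
  have hker : π (g ^ orderOf (π g)) = 1 := by
    rw [map_pow, pow_orderOf_eq_one]
  obtain ⟨s, hs⟩ := (hπ.ker _).1 hker
  have hs' : ∀ z, (g' ^ orderOf (π g)) z = s • z := by
    intro z
    rw [hpow, hs, map_smul, LinearEquiv.apply_symm_apply]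
  have hcop : (orderOf (π g)).Coprime (finrank F L) :=
    Nat.Coprime.coprime_dvd_left he' (by
      rw [Nat.coprime_self_add_left]
      exact Nat.coprime_one_left _)
  have hτ := aut_trivial hcop g' hform hs'
  refine ⟨φ, δ, c, fun x => ?_⟩
  have h1 := hform (φ x).1 (φ x).2
  rw [Prod.mk.eta, hg', LinearEquiv.symm_apply_apply, hτ] at h1
  exact h1

end Pool.Agent.Lib.MP_8f3271_al
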