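import Mathlib
import Pool.Agent.Lib.MP_8f3271_al.L.B

/-!
# Comparison of the two forms, and unipotent elements
-/

set_option autoImplicit false

open Pool.Agent.GPerm59 Pointwise Module

namespace Pool.Agent.Lib.MP_8f3271_al

variable {F V G E L : Type*} [Field F] [Finite F] [AddCommGroup V] [Module F V] [FiniteDimensional F V]
  [Group G] [Finite G] {π : SpecialLinearGroup F V →* G} {A : Subgroup G}
  [Field E] [Algebra F E] [FiniteDimensional F E] [Field L] [Algebra F L] [FiniteDimensional F L]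

/-! ### Row lin-U1 -/

/-- Proof. `δ ≠ c` (otherwise `g` is scalar and `σ = 1`). Let `v = φ_L⁻¹ (0, 1)`, `g v = c v`, and `y₀ = φ_E v ≠ 0`:
`μ σ y₀ = c y₀`. For `k` in the fixed field `K` of `σ` also `μ σ (k y₀) = c k y₀`, so `k y₀` is in the image of the
eigenspace of `g` for `c`, which is one dimensional (`δ ≠ c`). So `K = F` and `σ` generates `Gal(E/F)`
(`IntermediateField.fixedField`, `IsGalois`). -/
theorem order_eq (g : V ≃ₗ[F] V) (φE : V ≃ₗ[F] E) (φL : V ≃ₗ[F] (L × F)) {μ : F} {σ : E ≃ₐ[F] E}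
    (hE : ∀ x, φE (g x) = μ • σ (φE x)) {δ : L} {c : F}
    (hL : ∀ x, φL (g x) = (δ * (φL x).1, c * (φL x).2)) (hσ : σ ≠ 1) :
    orderOf σ = finrank F E ∧ δ ≠ algebraMap F L c := by
  have hc0 : c ≠ 0 := by
    intro h0
    have h1 : g (φL.symm (0, 1)) = 0 := by
      apply φL.injective
      rw [hL, LinearEquiv.apply_symm_apply, h0, map_zero, mul_zero, zero_mul]
      rfl
    have h2 : (φL.symm (0, 1) : V) = 0 := g.map_eq_zero_iff.1 h1
    have h3 : ((0, 1) : L × F) = 0 := φL.symm.map_eq_zero_iff.1 h2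
    exact one_ne_zero (congrArg Prod.snd h3)
  have hne : δ ≠ algebraMap F L c := by
    intro hδ
    have hg : ∀ x, g x = c • x := by
      intro x
      apply φL.injective
      rw [hL, hδ, map_smul, ← Algebra.smul_def]
      rfl
    have h1 : ∀ y : E, c • y = μ • σ y := by
      intro y
      have h2 := hE (φE.symm y)
      rw [hg, map_smul, LinearEquiv.apply_symm_apply] at h2
      exact h2
    have h2 : algebraMap F E c = algebraMap F E μ := by
      have h3 := h1 1
      rw [map_one, Algebra.smul_def, Algebra.smul_def, mul_one, mul_one] at h3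
      exact h3
    have h3 : c = μ := (algebraMap F E).injective h2
    apply hσ
    ext y
    have h4 := h1 y
    rw [← h3] at h4
    exact (smul_right_injective E hc0 h4).symm
  refine ⟨?_, hne⟩
  set v : V := φL.symm (0, 1) with hv
  have hgv : g v = c • v := by
    apply φL.injective
    rw [hL, map_smul, hv, LinearEquiv.apply_symm_apply, mul_zero, mul_one]
    simp
  have hy0 : φE v ≠ 0 := by
    intro h0
    have h2 : v = 0 := φE.map_eq_zero_iff.1 h0
    have h3 : ((0, 1) : L × F) = 0 := φL.symm.map_eq_zero_iff.1 h2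
    exact one_ne_zero (congrArg Prod.snd h3)
  have hbot : IntermediateField.fixedField (Subgroup.zpowers σ) = ⊥ := by
    rw [eq_bot_iff]
    intro k hk
    have hk1 : σ k = k := by
      rw [IntermediateField.mem_fixedField_iff] at hk
      exact hk σ (Subgroup.mem_zpowers σ)
    rw [IntermediateField.mem_bot]
    set w : V := φE.symm (k * φE v) with hw
    have hgw : g w = c • w := by
      apply φE.injective
      rw [hE, map_smul, hw, LinearEquiv.apply_symm_apply, map_mul, hk1]
      have h2 := hE v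
      rw [hgv, map_smul] at h2
      rw [← mul_smul_comm, ← h2, mul_smul_comm]
    have h3 := hL w
    rw [hgw, map_smul] at h3
    have h4 : c • (φL w).1 = δ * (φL w).1 := congrArg Prod.fst h3
    have h5 : (φL w).1 = 0 := by
      have h6 : (δ - algebraMap F L c) * (φL w).1 = 0 := by
        rw [sub_mul, ← h4, Algebra.smul_def, sub_self]
      exact (mul_eq_zero.1 h6).resolve_left (sub_ne_zero.2 hne)
    have h6 : w = (φL w).2 • v := by
      apply φL.injective
      rw [map_smul, hv, LinearEquiv.apply_symm_apply]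
      refine Prod.ext ?_ ?_
      · simp [h5]
      · simp
    refine ⟨(φL w).2, ?_⟩
    have h7 : k * φE v = (φL w).2 • φE v := by
      rw [← map_smul, ← h6, hw, LinearEquiv.apply_symm_apply]
    rw [Algebra.smul_def] at h7
    exact (mul_right_cancel₀ hy0 h7).symm
  have h1 := IntermediateField.finrank_fixedField_eq_card (Subgroup.zpowers σ)
  rw [hbot, IntermediateField.finrank_bot', Nat.card_zpowers] at h1
  exact h1.symm

/-! ### Row lin-U2 -/

/-- Proof. `P = minpoly F δ`, of degree `d = [F(δ) : F] ≤ m = finrank F L`. `(X - c) P (g) = 0` (look at `L × F`). In the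
form `μ σ` on `E`: `∑ c_k μ^k σ^k = 0` where `∑ c_k X^k = (X - c) P` has degree `d + 1`; if `d + 1 < m + 1 = finrank F E =
orderOf σ` the automorphisms `σ^k`, `k ≤ d + 1`, are different and independent: contradiction. So `d = m`,
`F(δ) = L`. (`μ ≠ 0`.) -/
theorem adjoin_eq_top (g : V ≃ₗ[F] V) (φE : V ≃ₗ[F] E) (φL : V ≃ₗ[F] (L × F)) {μ : F} {σ : E ≃ₐ[F] E}
    (hE : ∀ x, φE (g x) = μ • σ (φE x)) {δ : L} {c : F}
    (hL : ∀ x, φL (g x) = (δ * (φL x).1, c * (φL x).2)) (hσ : orderOf σ = finrank F E)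
    (hV : finrank F V = finrank F L + 1) : Algebra.adjoin F {δ} = ⊤ := by
  classical
  have hint : IsIntegral F δ := Algebra.IsIntegral.isIntegral δ
  have hEV : finrank F E = finrank F L + 1 := by rw [← hV]; exact φE.finrank_eq.symm
  have hgE : ∀ (k : ℕ) (x : V), φE ((g ^ k) x) = μ ^ k • (σ ^ k) (φE x) := by
    intro k
    induction k with
    | zero => intro x; simp
    | succ k ih =>
      intro x
      rw [pow_succ', LinearEquiv.mul_apply, hE, ih, map_smul, pow_succ' σ, AlgEquiv.mul_apply,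
        smul_smul, pow_succ']
  have hgL : ∀ (k : ℕ) (x : V), φL ((g ^ k) x) = (δ ^ k * (φL x).1, c ^ k * (φL x).2) := by
    intro k
    induction k with
    | zero => intro x; simp
    | succ k ih =>
      intro x
      rw [pow_succ', LinearEquiv.mul_apply, hL, ih, pow_succ' δ, pow_succ' c, mul_assoc, mul_assoc]
  have hμ : μ ≠ 0 := by
    rintro rfl
    have hnt : Nontrivial V := Module.nontrivial_of_finrank_pos (R := F) (by omega)
    obtain ⟨x, hx⟩ := exists_ne (0 : V)
    have h0 := hE x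
    rw [zero_smul, map_eq_zero_iff φE φE.injective, map_eq_zero_iff g g.injective] at h0
    exact hx h0
  set Q : Polynomial F := (Polynomial.X - Polynomial.C c) * minpoly F δ with hQ
  have hQm : Q.Monic := (Polynomial.monic_X_sub_C c).mul (minpoly.monic hint)
  have hQd : Q.natDegree = (minpoly F δ).natDegree + 1 := by
    rw [hQ, (Polynomial.monic_X_sub_C c).natDegree_mul (minpoly.monic hint),
      Polynomial.natDegree_X_sub_C, add_comm]
  have hQδ : Polynomial.aeval δ Q = 0 := by rw [hQ, map_mul, minpoly.aeval, mul_zero]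
  have hQc : Polynomial.aeval c Q = 0 := by
    rw [hQ, map_mul, map_sub, Polynomial.aeval_X, Polynomial.aeval_C]
    simp
  have hsum : ∀ x : V, ∑ k ∈ Finset.range (Q.natDegree + 1), Q.coeff k • (g ^ k) x = 0 := by
    intro x
    apply φL.injective
    rw [map_sum, map_zero]
    simp only [map_smul, hgL]
    apply Prod.ext
    · rw [Prod.fst_sum]
      rw [Polynomial.aeval_eq_sum_range] at hQδ
      simp only [Prod.smul_fst, Prod.fst_zero]
      rw [← zero_mul (φL x).1, ← hQδ, Finset.sum_mul]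
      exact Finset.sum_congr rfl fun k _ => (smul_mul_assoc _ _ _).symm
    · rw [Prod.snd_sum]
      rw [Polynomial.aeval_eq_sum_range] at hQc
      simp only [Prod.smul_snd, Prod.snd_zero]
      rw [← zero_mul (φL x).2, ← hQc, Finset.sum_mul]
      exact Finset.sum_congr rfl fun k _ => (smul_mul_assoc _ _ _).symm
  have hE0 : ∀ y : E, ∑ k ∈ Finset.range (Q.natDegree + 1),
      (Q.coeff k * μ ^ k) • (σ ^ k) y = 0 := by
    intro y
    have h1 := congrArg φE (hsum (φE.symm y))
    rw [map_sum, map_zero] at h1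
    simp only [map_smul, hgE, LinearEquiv.apply_symm_apply, smul_smul] at h1
    exact h1
  have hdeg : finrank F L ≤ (minpoly F δ).natDegree := by
    by_contra hlt
    have hlt' : Q.natDegree + 1 ≤ orderOf σ := by rw [hσ, hEV, hQd]; omega
    let ψ : Fin (Q.natDegree + 1) → (E →* E) := fun k => ((σ ^ (k : ℕ) : E ≃ₐ[F] E) : E →* E)
    have hψ : Function.Injective ψ := by
      intro i j hij
      have h2 : σ ^ (i : ℕ) = σ ^ (j : ℕ) := by
        apply AlgEquiv.ext
        intro y
        exact DFunLike.congr_fun hij y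
      have h3 := pow_injOn_Iio_orderOf (x := σ) (show (i : ℕ) ∈ Set.Iio (orderOf σ) from
        lt_of_lt_of_le i.2 hlt') (show (j : ℕ) ∈ Set.Iio (orderOf σ) from
        lt_of_lt_of_le j.2 hlt') h2
      exact Fin.ext h3
    have hli := (linearIndependent_monoidHom E E).comp ψ hψ
    rw [Fintype.linearIndependent_iff] at hli
    have h4 := hli (fun k => algebraMap F E (Q.coeff k * μ ^ (k : ℕ))) (by
      funext y
      rw [Finset.sum_apply]
      have h5 := hE0 y
      rw [Finset.sum_range] at h5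
      rw [Pi.zero_apply, ← h5]
      refine Finset.sum_congr rfl fun k _ => ?_
      exact (Algebra.smul_def (Q.coeff (k : ℕ) * μ ^ (k : ℕ)) ((σ ^ (k : ℕ)) y)).symm) ⟨Q.natDegree, Nat.lt_succ_self _⟩
    rw [map_eq_zero_iff _ (algebraMap F E).injective] at h4
    simp only [Polynomial.coeff_natDegree, hQm.leadingCoeff, one_mul] at h4
    exact pow_ne_zero _ hμ h4
  have hfin : finrank F (Algebra.adjoin F {δ}) = (minpoly F δ).natDegree := by
    rw [(Algebra.adjoin.powerBasis hint).finrank, Algebra.adjoin.powerBasis_dim hint]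
  have htop : Subalgebra.toSubmodule (Algebra.adjoin F {δ}) = ⊤ := by
    apply Submodule.eq_top_of_finrank_eq
    apply le_antisymm (Submodule.finrank_le _)
    calc finrank F L ≤ (minpoly F δ).natDegree := hdeg
      _ = finrank F (Algebra.adjoin F {δ}) := hfin.symm
      _ = _ := rfl
  exact Algebra.toSubmodule_eq_top.1 htop

/-! ### Row lin-U3 -/

/-- The invariant subspaces of `L × F`. -/
theorem U3_cases {δ : L} {c : F} (hδ : Algebra.adjoin F {δ} = ⊤) (hm : 2 ≤ finrank F L)
    (W : Submodule F (L × F)) (hW : ∀ z ∈ W, (δ * z.1, c * z.2) ∈ W) :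
    W = ⊥ ∨ W = LinearMap.ker (LinearMap.fst F L F) ∨ W = LinearMap.ker (LinearMap.snd F L F) ∨
      W = ⊤ := by
  have hne : δ ≠ algebraMap F L c := by
    rintro rfl
    have h1 : Algebra.adjoin F {algebraMap F L c} ≤ ⊥ :=
      Algebra.adjoin_le (Set.singleton_subset_iff.2 (Subalgebra.algebraMap_mem _ c))
    rw [hδ] at h1
    have h2 : (⊥ : Subalgebra F L) = ⊤ := le_antisymm bot_le h1
    have h3 := Subalgebra.bot_eq_top_iff_finrank_eq_one.1 h2
    omega
  have hmul : ∀ a : L, ∀ z : L, (z, (0 : F)) ∈ W → (a * z, (0 : F)) ∈ W := by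
    intro a
    have ha : a ∈ Algebra.adjoin F {δ} := by rw [hδ]; exact Algebra.mem_top
    induction ha using Algebra.adjoin_induction with
    | mem x hx =>
      intro z hz
      rw [Set.mem_singleton_iff] at hx
      rw [hx]
      have := hW _ hz
      simpa using this
    | algebraMap r =>
      intro z hz
      have := W.smul_mem r hz
      rw [Prod.smul_mk, smul_zero, Algebra.smul_def] at this
      exact this
    | add x y _ _ hx hy =>
      intro z hz
      have := W.add_mem (hx z hz) (hy z hz)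
      rw [Prod.mk_add_mk, add_zero, ← add_mul] at this
      exact this
    | mul x y _ _ hx hy =>
      intro z hz
      rw [mul_assoc]
      exact hx _ (hy z hz)
  have hL0 : ∀ x : L, ∀ y : F, (x, y) ∈ W → x ≠ 0 → ∀ z : L, (z, (0 : F)) ∈ W := by
    intro x y hxy hx z
    have h1 := W.sub_mem (hW _ hxy) (W.smul_mem c hxy)
    have h2 : ((δ * (x, y).1, c * (x, y).2) : L × F) - c • (x, y) =
        ((δ - algebraMap F L c) * x, (0 : F)) := by
      ext
      · simp [Algebra.smul_def, sub_mul]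
      · simp
    rw [h2] at h1
    have hx' : (δ - algebraMap F L c) * x ≠ 0 := mul_ne_zero (sub_ne_zero.2 hne) hx
    have h3 := hmul (z * ((δ - algebraMap F L c) * x)⁻¹) _ h1
    rwa [inv_mul_cancel_right₀ hx'] at h3
  by_cases hA : ∃ x : L, ∃ y : F, (x, y) ∈ W ∧ x ≠ 0
  · obtain ⟨x, y, hxy, hx⟩ := hA
    have hall := hL0 x y hxy hx
    by_cases hB : ∃ x : L, ∃ y : F, (x, y) ∈ W ∧ y ≠ 0
    · right; right; right
      obtain ⟨x', y', hxy', hy'⟩ := hB
      have h0 : ((0 : L), y') ∈ W := by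
        have := W.sub_mem hxy' (hall x')
        rw [Prod.mk_sub_mk, sub_self, sub_zero] at this
        exact this
      rw [eq_top_iff]
      rintro ⟨a, b⟩ _
      have h1 := W.add_mem (hall a) (W.smul_mem (b * y'⁻¹) h0)
      rw [Prod.smul_mk, smul_zero, Prod.mk_add_mk, add_zero, zero_add, smul_eq_mul,
        inv_mul_cancel_right₀ hy'] at h1
      exact h1
    · right; right; left
      push Not at hB
      ext ⟨a, b⟩
      rw [LinearMap.mem_ker, LinearMap.snd_apply]
      constructor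
      · intro h; exact hB a b h
      · intro h
        have hb : b = 0 := h
        rw [hb]; exact hall a
  · push Not at hA
    by_cases hB : ∃ x : L, ∃ y : F, (x, y) ∈ W ∧ y ≠ 0
    · right; left
      obtain ⟨x', y', hxy', hy'⟩ := hB
      have hx' := hA x' y' hxy'
      rw [hx'] at hxy'
      ext ⟨a, b⟩
      rw [LinearMap.mem_ker, LinearMap.fst_apply]
      constructor
      · intro h; exact hA a b h
      · intro h
        have ha : a = 0 := h
        rw [ha]
        have h1 := W.smul_mem (b * y'⁻¹) hxy'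
        rw [Prod.smul_mk, smul_zero, smul_eq_mul, inv_mul_cancel_right₀ hy'] at h1
        exact h1
    · left
      push Not at hB
      rw [eq_bot_iff]
      rintro ⟨a, b⟩ h
      rw [Submodule.mem_bot, hA a b h, hB a b h]
      rfl

theorem U3_finrank_fst : finrank F (LinearMap.ker (LinearMap.fst F L F)) = 1 := by
  have h1 := LinearMap.finrank_range_add_finrank_ker (LinearMap.fst F L F)
  rw [LinearMap.range_eq_top.2 LinearMap.fst_surjective, finrank_top, Module.finrank_prod,
    Module.finrank_self] at h1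
  omega

theorem U3_finrank_snd : finrank F (LinearMap.ker (LinearMap.snd F L F)) = finrank F L := by
  have h1 := LinearMap.finrank_range_add_finrank_ker (LinearMap.snd F L F)
  rw [LinearMap.range_eq_top.2 LinearMap.snd_surjective, finrank_top, Module.finrank_prod,
    Module.finrank_self] at h1
  omega

/-- Proof. `W₁ = ker N` and `W₂ = range N` are `g`-invariant. A `g`-invariant subspace `W` of `L × F` is
`0`, `0 × F`, `L × 0` or everything: if `(x, y) ∈ W`, `x ≠ 0`, then `((δ - c) x, 0) ∈ W` and, as `F(δ) = L`, `L × 0 ≤ W`;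
if `(x, y) ∈ W`, `y ≠ 0`, apply `P (g)`, `P = minpoly F δ`, `P(c) ≠ 0` (irreducible of degree `≥ 2`), to get `(0, 1) ∈ W`.
`N` is nilpotent and not `0`, so `W₁`, `W₂` are proper and nonzero and `W₁ ⊓ W₂ ≠ 0`; so `W₁ = W₂` (the two are
complementary) and `n = 2 dim W₁ ∈ {2, 2 (n - 1)}`, `n = 2`. -/
theorem no_nilpotent (g : V ≃ₗ[F] V) (φ : V ≃ₗ[F] (L × F)) {δ : L} {c : F}
    (hL : ∀ x, φ (g x) = (δ * (φ x).1, c * (φ x).2)) (hδ : Algebra.adjoin F {δ} = ⊤)
    (hm : 2 ≤ finrank F L) (N : V →ₗ[F] V) (hN : IsNilpotent N) (hN0 : N ≠ 0)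
    (h1 : ∀ x, N x = 0 → N (g x) = 0) (h2 : ∀ x, ∃ y, g (N x) = N y) : False := by
  classical
  -- a vector in the kernel and the range
  obtain ⟨w, v, hw0, hNw, hvw⟩ : ∃ w v : V, w ≠ 0 ∧ N w = 0 ∧ N v = w := by
    have hex : ∃ k, N ^ k = 0 := hN
    obtain ⟨k, hk, hmin⟩ : ∃ k, N ^ k = 0 ∧ ∀ l < k, N ^ l ≠ 0 :=
      ⟨Nat.find hex, Nat.find_spec hex, fun l hl => Nat.find_min hex hl⟩
    match k, hk, hmin with
    | 0, hk, _ =>
      exfalso
      apply hN0
      have : N = N * N ^ 0 := by rw [pow_zero, mul_one]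
      rw [this, hk, mul_zero]
    | 1, hk, _ =>
      exact absurd (by simpa using hk) hN0
    | l + 2, hk, hmin =>
      have h3 := hmin (l + 1) (by omega)
      obtain ⟨v, hv⟩ : ∃ v, (N ^ (l + 1)) v ≠ 0 := by
        by_contra hcon
        push Not at hcon
        exact h3 (LinearMap.ext hcon)
      refine ⟨(N ^ (l + 1)) v, (N ^ l) v, hv, ?_, ?_⟩
      · have : N ((N ^ (l + 1)) v) = (N ^ (l + 2)) v := by
          rw [pow_succ' N (l + 1)]; rfl
        rw [this, hk]; rfl
      · rw [pow_succ' N l]; rfl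
  have hKinv : ∀ z ∈ (LinearMap.ker N).map (φ : V →ₗ[F] L × F), (δ * z.1, c * z.2) ∈
      (LinearMap.ker N).map (φ : V →ₗ[F] L × F) := by
    rintro _ ⟨x, hx, rfl⟩
    refine ⟨g x, h1 x hx, ?_⟩
    exact hL x
  have hRinv : ∀ z ∈ (LinearMap.range N).map (φ : V →ₗ[F] L × F), (δ * z.1, c * z.2) ∈
      (LinearMap.range N).map (φ : V →ₗ[F] L × F) := by
    rintro _ ⟨x, ⟨x', rfl⟩, rfl⟩
    obtain ⟨y, hy⟩ := h2 x'
    refine ⟨g (N x'), ⟨y, hy.symm⟩, ?_⟩
    exact hL _
  have eK : finrank F ((LinearMap.ker N).map (φ : V →ₗ[F] L × F)) = finrank F (LinearMap.ker N) :=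
    LinearEquiv.finrank_map_eq φ _
  have eR : finrank F ((LinearMap.range N).map (φ : V →ₗ[F] L × F)) =
      finrank F (LinearMap.range N) := LinearEquiv.finrank_map_eq φ _
  have hrn := LinearMap.finrank_range_add_finrank_ker N
  have hV : finrank F V = finrank F L + 1 := by
    rw [φ.finrank_eq, Module.finrank_prod, Module.finrank_self]
  have hKpos : 1 ≤ finrank F (LinearMap.ker N) :=
    Submodule.one_le_finrank_iff.2 (fun h0 => hw0 (by
      have : w ∈ LinearMap.ker N := hNw
      rwa [h0, Submodule.mem_bot] at this))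
  have hRpos : 1 ≤ finrank F (LinearMap.range N) :=
    Submodule.one_le_finrank_iff.2 (fun h0 => hw0 (by
      have : w ∈ LinearMap.range N := ⟨v, hvw⟩
      rwa [h0, Submodule.mem_bot] at this))
  have hwK : φ w ∈ (LinearMap.ker N).map (φ : V →ₗ[F] L × F) := ⟨w, hNw, rfl⟩
  have hwR : φ w ∈ (LinearMap.range N).map (φ : V →ₗ[F] L × F) := ⟨w, ⟨v, hvw⟩, rfl⟩
  have hφw : φ w ≠ 0 := fun h0 => hw0 (φ.injective (h0.trans (map_zero φ).symm))
  have hP : finrank F (L × F) = finrank F L + 1 := by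
    rw [Module.finrank_prod, Module.finrank_self]
  rcases U3_cases hδ hm _ hKinv with hK | hK | hK | hK
  · rw [hK, finrank_bot] at eK
    omega
  · rcases U3_cases hδ hm _ hRinv with hR | hR | hR | hR
    · rw [hR, finrank_bot] at eR
      omega
    · rw [hK, U3_finrank_fst] at eK
      rw [hR, U3_finrank_fst] at eR
      omega
    · rw [hK] at hwK
      rw [hR] at hwR
      exact hφw (Prod.ext hwK hwR)
    · rw [hR, finrank_top, hP] at eR
      omega
  · rcases U3_cases hδ hm _ hRinv with hR | hR | hR | hR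
    · rw [hR, finrank_bot] at eR
      omega
    · rw [hK] at hwK
      rw [hR] at hwR
      exact hφw (Prod.ext hwR hwK)
    · rw [hK, U3_finrank_snd] at eK
      rw [hR, U3_finrank_snd] at eR
      omega
    · rw [hR, finrank_top, hP] at eR
      omega
  · rw [hK, finrank_top, hP] at eK
    omega

/-! ### Row lin-U4 -/

/-- the shift of a basis -/
private noncomputable def U4_N {F V : Type*} [Field F] [AddCommGroup V] [Module F V] {n : ℕ} (b : Basis (Fin n) F V) :
    Module.End F V :=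
  b.constr F fun i : Fin n => if h : (i : ℕ) + 1 < n then b ⟨(i : ℕ) + 1, h⟩ else 0

private theorem U4_pow {F V : Type*} [Field F] [AddCommGroup V] [Module F V] {n : ℕ} (b : Basis (Fin n) F V) (k : ℕ) :
    ∀ i : Fin n, (U4_N b ^ k) (b i) = if h : (i : ℕ) + k < n then b ⟨(i : ℕ) + k, h⟩ else 0 := by
  induction k with
  | zero =>
    intro i
    simp
  | succ k ih =>
    intro i
    rw [pow_succ, Module.End.mul_apply]
    have h1 : U4_N b (b i) = if h : (i : ℕ) + 1 < n then b ⟨(i : ℕ) + 1, h⟩ else 0 := by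
      rw [U4_N, Basis.constr_basis]
    rw [h1]
    by_cases h2 : (i : ℕ) + 1 < n
    · rw [dif_pos h2, ih]
      by_cases h3 : (i : ℕ) + (k + 1) < n
      · rw [dif_pos h3, dif_pos (by simp only; omega)]
        congr 2
        simp only
        omega
      · rw [dif_neg h3, dif_neg (by simp only; omega)]
    · rw [dif_neg h2, map_zero, dif_neg (by omega)]

/-- A regular unipotent element: `u = 1 + N`, `N` the shift of a basis (`N^n = 0`, `N^(n-1) ≠ 0`), has order a power of
`p`, and if `u^j = 1`, `j > 0`, then with `p^s` the order, `N^(p^s) = (u - 1)^(p^s) = 0`, so `n ≤ p^s ≤ j`. The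
determinant of a unipotent map is `1` (e.g. triangular matrix). -/
theorem exists_unipotent (p : ℕ) [Fact p.Prime] [CharP F p] (hn : 1 ≤ finrank F V) :
    ∃ u : SpecialLinearGroup F V, (∃ s, u ^ (p ^ s) = 1) ∧
      ∀ j : ℕ, 0 < j → j < finrank F V → u ^ j ≠ 1 := by
  have hp : p.Prime := Fact.out
  set n := finrank F V with hn'
  let b : Basis (Fin n) F V := finBasisOfFinrankEq F V rfl
  have : Nontrivial V := Module.nontrivial_of_finrank_pos (R := F) (by omega)
  have hch : CharP (Module.End F V) p :=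
    charP_of_injective_algebraMap (algebraMap F (Module.End F V)).injective p
  have hN : ∀ k, n ≤ k → U4_N b ^ k = 0 := by
    intro k hk
    refine b.ext fun i => ?_
    rw [U4_pow, dif_neg (by omega)]
    rfl
  have hN' : ∀ k, k < n → U4_N b ^ k ≠ 0 := by
    intro k hk h0
    have h1 := U4_pow b k ⟨0, by omega⟩
    rw [h0, dif_pos (by simp only; omega)] at h1
    exact b.ne_zero _ h1.symm
  have hU : ∀ s, (1 + U4_N b) ^ (p ^ s) = 1 + U4_N b ^ (p ^ s) := by
    intro s
    rw [add_pow_char_pow_of_commute p s (Commute.one_left _), one_pow]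
  obtain ⟨s, hs⟩ : ∃ s, n ≤ p ^ s := ⟨n, (Nat.lt_pow_self hp.one_lt).le⟩
  have hone : (1 + U4_N b) ^ (p ^ s) = 1 := by rw [hU, hN _ hs, add_zero]
  have hps : 0 < p ^ s := pow_pos hp.pos s
  have hm1 : (1 + U4_N b) * (1 + U4_N b) ^ (p ^ s - 1) = 1 := by
    rw [← pow_succ', Nat.sub_add_cancel hps, hone]
  have hm2 : (1 + U4_N b) ^ (p ^ s - 1) * (1 + U4_N b) = 1 := by
    rw [← pow_succ, Nat.sub_add_cancel hps, hone]
  let w : V ≃ₗ[F] V := LinearEquiv.ofLinearMap (1 + U4_N b) ((1 + U4_N b) ^ (p ^ s - 1)) hm1 hm2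
  have hw : ∀ k : ℕ, ((w ^ k : V ≃ₗ[F] V) : V →ₗ[F] V) = (1 + U4_N b) ^ k := by
    intro k
    induction k with
    | zero => rfl
    | succ k ih =>
      rw [pow_succ, pow_succ, ← ih]
      rfl
  have hw1 : ∀ k : ℕ, w ^ k = 1 ↔ (1 + U4_N b) ^ k = 1 := by
    intro k
    rw [← hw k]
    constructor
    · intro h
      rw [h]
      rfl
    · intro h
      refine LinearEquiv.toLinearMap_injective ?_
      rw [h]
      rfl
  have hwone : w ^ (p ^ s) = 1 := (hw1 _).2 hone
  have hdet : LinearEquiv.det w = 1 := by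
    have h1 : LinearEquiv.det w ^ (p ^ s) = 1 := by rw [← map_pow, hwone, map_one]
    have h2 : ((LinearEquiv.det w : Fˣ) : F) ^ (p ^ s) = 1 := by
      rw [← Units.val_pow_eq_pow_val, h1, Units.val_one]
    have h3 : (((LinearEquiv.det w : Fˣ) : F) - 1) ^ (p ^ s) = 0 := by
      rw [sub_pow_char_pow, h2, one_pow, sub_self]
    have h4 := pow_eq_zero_iff (by omega) |>.1 h3
    exact Units.ext (sub_eq_zero.1 h4)
  have hcoe : ∀ k : ℕ, (⟨w, hdet⟩ : SpecialLinearGroup F V) ^ k = 1 ↔ (1 + U4_N b) ^ k = 1 := by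
    intro k
    rw [← hw1 k]
    constructor
    · intro h
      have := congrArg Subtype.val h
      exact this
    · intro h
      exact Subtype.ext h
  refine ⟨⟨w, hdet⟩, ⟨s, (hcoe _).2 hone⟩, fun j hj hjn h => ?_⟩
  have h1 := (hcoe j).1 h
  have h2 : orderOf (1 + U4_N b) ∣ p ^ s := orderOf_dvd_of_pow_eq_one hone
  obtain ⟨t, -, ht⟩ := (Nat.dvd_prime_pow hp).1 h2
  have h3 : p ^ t ∣ j := by
    rw [← ht]
    exact orderOf_dvd_of_pow_eq_one h1
  have h4 : p ^ t ≤ j := Nat.le_of_dvd hj h3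
  have h5 : (1 + U4_N b) ^ (p ^ t) = 1 := by
    rw [← ht]
    exact pow_orderOf_eq_one _
  rw [hU] at h5
  exact hN' (p ^ t) (by omega) (by simpa using h5)

/-! ### Row lin-U5 -/

theorem U5_fix {F V : Type*} [Field F] [AddCommGroup V] [Module F V] (w : V ≃ₗ[F] V) {y : V}
    (h : w y = y) (l : ℕ) : (w ^ l) y = y := by
  induction l with
  | zero => rfl
  | succ l ih =>
    rw [pow_succ]
    show (w ^ l) (w y) = y
    rw [h, ih]

theorem U5_mem {G : Type*} [Group G] {g a : G} {k : ℕ} (ha : IsOfFinOrder a)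
    (h : g * a * g⁻¹ = a ^ k) : ∃ l : ℕ, (a ^ k) ^ l = a := by
  have h1 : orderOf (a ^ k) = orderOf a := by
    rw [← h]
    exact orderOf_injective (MulAut.conj g).toMonoidHom (MulAut.conj g).injective a
  have h0 : 0 < orderOf a := ha.orderOf_pos
  have h2 : (orderOf a).gcd k = 1 := by
    rw [ha.orderOf_pow] at h1
    have h3 : 0 < (orderOf a).gcd k := Nat.gcd_pos_of_pos_left _ h0
    have h4 := Nat.div_mul_cancel (Nat.gcd_dvd_left (orderOf a) k)
    rw [h1] at h4
    exact Nat.eq_of_mul_eq_mul_left h0 (by rw [h4, mul_one])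
  exact exists_pow_eq_self_of_coprime (by rw [Nat.Coprime, Nat.gcd_comm]; exact h2)

theorem U5_core {F V : Type*} [Field F] [AddCommGroup V] [Module F V] (g a : V ≃ₗ[F] V) (k q : ℕ)
    {p s : ℕ} [Fact p.Prime] [CharP F p] (hq : q = p ^ s)
    (haq : a ^ q = 1) (ha : a ≠ 1) (h : g * a * g⁻¹ = a ^ k) :
    ∃ N : V →ₗ[F] V, IsNilpotent N ∧ N ≠ 0 ∧ (∀ x, N x = 0 → N (g x) = 0) ∧
      ∀ x, ∃ y, g (N x) = N y := by
  have hfin : IsOfFinOrder a := isOfFinOrder_iff_pow_eq_one.2
    ⟨q, by rw [hq]; exact pow_pos (Fact.out : p.Prime).pos s, haq⟩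
  obtain ⟨l, hl⟩ := U5_mem hfin h
  have hcomm : ∀ x, (a ^ k) (g x) = g (a x) := by
    intro x
    rw [← h]
    show g (a (g⁻¹ (g x))) = g (a x)
    have : g⁻¹ (g x) = x := g.symm_apply_apply x
    rw [this]
  let B : Module.End F V := LinearEquiv.automorphismGroup.toLinearMapMonoidHom a
  have hB : ∀ (m : ℕ) (x : V), (B ^ m) x = (a ^ m) x := by
    intro m x
    have : B ^ m = LinearEquiv.automorphismGroup.toLinearMapMonoidHom (a ^ m) :=
      (map_pow LinearEquiv.automorphismGroup.toLinearMapMonoidHom a m).symm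
    rw [this]
    rfl
  have hN : ∀ x, (B - 1 : Module.End F V) x = a x - x := fun x => rfl
  refine ⟨B - 1, ⟨q, ?_⟩, ?_, ?_, ?_⟩
  · have hX : (Polynomial.X - 1 : Polynomial F) ^ (p ^ s) = Polynomial.X ^ (p ^ s) - 1 := by
      rw [sub_pow_char_pow, one_pow]
    have h1 := congrArg (Polynomial.aeval B) hX
    simp only [map_pow, map_sub, Polynomial.aeval_X, map_one] at h1
    rw [hq]
    refine h1.trans ?_
    ext x
    show (B ^ (p ^ s)) x - x = 0
    rw [hB, ← hq, haq]
    exact sub_self x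
  · intro h0
    apply ha
    ext x
    have h1 : (B - 1 : Module.End F V) x = 0 := by rw [h0]; rfl
    rw [hN] at h1
    exact sub_eq_zero.1 h1
  · intro x hx
    rw [hN] at hx ⊢
    have h1 : a x = x := sub_eq_zero.1 hx
    have h2 : (a ^ k) (g x) = g x := by rw [hcomm, h1]
    have h3 := U5_fix (a ^ k) h2 l
    rw [hl] at h3
    rw [h3, sub_self]
  · intro x
    refine ⟨(∑ i ∈ Finset.range k, B ^ i) (g x), ?_⟩
    have h1 : ((B - 1) * ∑ i ∈ Finset.range k, B ^ i : Module.End F V) = B ^ k - 1 :=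
      mul_geom_sum B k
    have h2 : (B - 1 : Module.End F V) ((∑ i ∈ Finset.range k, B ^ i) (g x)) =
        (B ^ k - 1 : Module.End F V) (g x) := by
      rw [← h1]
      rfl
    rw [h2]
    show g ((B - 1 : Module.End F V) x) = (B ^ k) (g x) - g x
    rw [hN, hB, hcomm, map_sub]

theorem U5_scalar {F V : Type*} [Field F] [AddCommGroup V] [Module F V] [Nontrivial V]
    {p s : ℕ} [Fact p.Prime] [CharP F p] (b w z : SpecialLinearGroup F V) (hz : b = w * z)
    (hb : b ^ (p ^ s) = 1) (hw : w ^ (p ^ s) = 1) {ζ : F} (hζ : ∀ x : V, z x = ζ • x) : z = 1 := by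
  have hcomm : Commute w z := by
    apply SpecialLinearGroup.ext
    intro x
    show w (z x) = z (w x)
    rw [hζ, hζ]
    exact map_smul w.val ζ x
  have h1 : z ^ (p ^ s) = 1 := by
    rw [hz, hcomm.mul_pow, hw, one_mul] at hb
    exact hb
  have h2 : ∀ (m : ℕ) (x : V), (z ^ m) x = ζ ^ m • x := by
    intro m
    induction m with
    | zero =>
      intro x
      rw [pow_zero, pow_zero, one_smul]
      rfl
    | succ m ih =>
      intro x
      rw [pow_succ]
      show (z ^ m) (z x) = _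
      rw [hζ, ih, smul_smul, pow_succ]
  obtain ⟨x, hx⟩ := exists_ne (0 : V)
  have h3 : ζ ^ (p ^ s) = 1 := by
    have h4 := h2 (p ^ s) x
    rw [h1] at h4
    have h5 : (ζ ^ (p ^ s) - 1) • x = 0 := by
      rw [sub_smul, one_smul, ← h4]
      exact sub_self x
    rcases smul_eq_zero.1 h5 with h6 | h6
    · exact sub_eq_zero.1 h6
    · exact absurd h6 hx
  have h4 : ζ = 1 := by
    have h5 : (ζ - 1) ^ (p ^ s) = 0 := by
      rw [sub_pow_char_pow, h3, one_pow, sub_self]
    exact sub_eq_zero.1 (eq_zero_of_pow_eq_zero h5)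
  apply SpecialLinearGroup.ext
  intro x
  rw [hζ, h4, one_smul]
  rfl

/-- Proof. `B = ⟨π u⟩`, `hA B` gives `x = π h`, replace `u` by `u' = h⁻¹ u h`; `cyc_prod` gives `0 < j < orderOf (π g) ≤
finrank F V` with `π g (π u')^j (π g)⁻¹ ∈ ⟨(π u')^j⟩`, that is `g u'^j g⁻¹ = ζ u'^(j k)`, `k : ℕ`. Raising to the power `p^s`:
`ζ^(p^s) = 1`, so `ζ = 1`. `N = u'^j - 1` is nilpotent and not `0`. `u'^(j k) - 1 = N M`, `M` commuting with `N`. `g` maps
`ker N` into `ker (u'^(j k) - 1)`, which contains `ker N` and has the same dimension; and `range N` onto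
`range (u'^(j k) - 1) ≤ range N`. -/
theorem exists_nilpotent (hπ : IsProj π) (hA : GPermutable A) (g : SpecialLinearGroup F V)
    (hg : A = Subgroup.zpowers (π g)) (he : 2 ≤ orderOf (π g)) (he' : orderOf (π g) ≤ finrank F V) :
    ∃ N : V →ₗ[F] V, IsNilpotent N ∧ N ≠ 0 ∧ (∀ x, N x = 0 → N (g x) = 0) ∧
      ∀ x, ∃ y, g (N x) = N y := by
  classical
  obtain ⟨p, hp⟩ := CharP.exists F
  have hpp : Fact p.Prime := ⟨CharP.char_is_prime F p⟩
  have hn : 1 ≤ finrank F V := by omega
  have hnt : Nontrivial V := Module.nontrivial_of_finrank_pos (R := F) (by omega)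
  obtain ⟨u, ⟨s, hs⟩, hu⟩ := exists_unipotent (F := F) (V := V) p hn
  obtain ⟨x, hx⟩ := hA (Subgroup.zpowers (π u))
  obtain ⟨h, rfl⟩ := hπ.surj x
  have hconj : conj (Subgroup.zpowers (π u)) (π h) = Subgroup.zpowers (π (h⁻¹ * u * h)) := by
    unfold conj
    rw [MonoidHom.map_zpowers]
    congr 1
    simp [map_mul, map_inv]
  rw [hconj, hg] at hx
  obtain ⟨j, hj0, hj1, hj2⟩ := cyc_prod hx he
  obtain ⟨k, hk⟩ : ∃ k : ℕ, (π (h⁻¹ * u * h) ^ j) ^ k = π g * π (h⁻¹ * u * h) ^ j * (π g)⁻¹ :=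
    Submonoid.mem_powers_iff _ _ |>.1
      ((isOfFinOrder_of_finite (π (h⁻¹ * u * h) ^ j)).mem_powers_iff_mem_zpowers.2 hj2)
  have hu' : (h⁻¹ * u * h) ^ (p ^ s) = 1 := by
    have h1 := conj_pow (i := p ^ s) (a := h⁻¹) (b := u)
    rw [inv_inv, hs, mul_one, inv_mul_cancel] at h1
    exact h1
  have haq : ((h⁻¹ * u * h) ^ j) ^ (p ^ s) = 1 := by
    rw [← pow_mul, mul_comm, pow_mul, hu', one_pow]
  have ha1 : (h⁻¹ * u * h) ^ j ≠ 1 := by
    intro h0
    have h1 := conj_pow (i := j) (a := h⁻¹) (b := u)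
    rw [inv_inv, h0] at h1
    apply hu j hj0 (lt_of_lt_of_le hj1 he')
    have h2 : h * 1 * h⁻¹ = h * (h⁻¹ * u ^ j * h) * h⁻¹ := by rw [← h1]
    rw [mul_one, mul_inv_cancel] at h2
    rw [h2]
    group
  have hker : π ((((h⁻¹ * u * h) ^ j) ^ k)⁻¹ * (g * (h⁻¹ * u * h) ^ j * g⁻¹)) = 1 := by
    have hk' : (π ((h⁻¹ * u * h) ^ j)) ^ k = π g * π ((h⁻¹ * u * h) ^ j) * (π g)⁻¹ := by
      rw [map_pow]
      exact hk
    rw [map_mul, map_inv, map_pow π ((h⁻¹ * u * h) ^ j) k, hk', map_mul, map_mul, map_inv]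
    exact inv_mul_cancel _
  obtain ⟨ζ, hζ⟩ := (hπ.ker _).1 hker
  have hz := U5_scalar (p := p) (s := s) (g * (h⁻¹ * u * h) ^ j * g⁻¹)
    (((h⁻¹ * u * h) ^ j) ^ k) _ (mul_inv_cancel_left _ _).symm
    (by rw [conj_pow, haq, mul_one, mul_inv_cancel])
    (by rw [← pow_mul, mul_comm k, pow_mul, haq, one_pow]) hζ
  have hga : g * (h⁻¹ * u * h) ^ j * g⁻¹ = ((h⁻¹ * u * h) ^ j) ^ k :=
    (inv_mul_eq_one.1 hz).symm
  exact U5_core g.val ((h⁻¹ * u * h) ^ j).val k (p ^ s) rfl (congrArg Subtype.val haq)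
    (fun h0 => ha1 (Subtype.ext h0)) (congrArg Subtype.val hga)

end Pool.Agent.Lib.MP_8f3271_al
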