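import Mathlib
import Pool.Agent.Lib.MP_8f3271_al.L.D
import Pool.Agent.Lib.MP_8f3271_al.L.T
import Pool.Agent.Lib.MP_8f3271_al.L.U

/-!
# PSL(n, F), n ≥ 3, has no nontrivial G-permutable subgroup
-/

set_option autoImplicit false

open Pool.Agent.GPerm59 Pointwise Module

namespace Pool.Agent.Lib.MP_8f3271_al

theorem main_abstract {F V G : Type*} [Field F] [Finite F] [AddCommGroup V] [Module F V]
    [FiniteDimensional F V] [Group G] [Finite G] [IsSimpleGroup G]
    {π : SpecialLinearGroup F V →* G} (hπ : IsProj π) (hn : 3 ≤ finrank F V) {A : Subgroup G}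
    (hA : GPermutable A) : A = ⊥ ∨ A = ⊤ := by
  by_contra hcon
  push Not at hcon
  obtain ⟨hb, ht⟩ := hcon
  obtain ⟨p, hp⟩ := CharP.exists F
  have hpp : Fact p.Prime := ⟨CharP.char_is_prime F p⟩
  have hn0 : NeZero (finrank F V) := ⟨by omega⟩
  have hn1 : NeZero (finrank F V - 1) := ⟨by omega⟩
  let E := FiniteField.Extension F p (finrank F V)
  let L := FiniteField.Extension F p (finrank F V - 1)
  have hE : finrank F E = finrank F V := FiniteField.finrank_extension F p _
  have hL : finrank F L = finrank F V - 1 := FiniteField.finrank_extension F p _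
  obtain ⟨φ, hφ⟩ := exists_form (E := E) hπ hA ht hE.symm hn
  obtain ⟨g, μ, σ, hAg, hg, hord, h2, hdvd⟩ := exists_generator hπ hb φ hφ
  rw [hE] at hdvd
  have hle : orderOf σ ≤ finrank F V := Nat.le_of_dvd (by omega) hdvd
  obtain ⟨φL, δ, c, hgL⟩ := exists_torus_form (L := L) hπ hA g hAg (hord ▸ h2)
    (by rw [hL, hord, show finrank F V - 1 + 1 = finrank F V by omega]; exact hdvd) (by omega) (by omega)
  have hσ : σ ≠ 1 := by
    rintro rfl
    rw [orderOf_one] at h2
    omega
  obtain ⟨h3, -⟩ := order_eq (g : V ≃ₗ[F] V) φ φL hg hgL hσ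
  have h4 := adjoin_eq_top (g : V ≃ₗ[F] V) φ φL hg hgL h3 (by omega)
  obtain ⟨N, hN, hN0, h5, h6⟩ := exists_nilpotent hπ hA g hAg (hord ▸ h2) (hord ▸ hle)
  exact no_nilpotent (g : V ≃ₗ[F] V) φL hgL h4 (by omega) N hN hN0 h5 h6

/-- For `n ≥ 3` and every finite field `F` the simple group `PSL(n, F)` has no `G`-permutable subgroup
except `1` and itself. -/
theorem main {n : ℕ} (hn : 3 ≤ n) (F : Type*) [Field F] [Finite F]
    (A : Subgroup (Matrix.ProjectiveSpecialLinearGroup (Fin n) F)) (hA : GPermutable A) :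
    A = ⊥ ∨ A = ⊤ := by
  have := psl_simple hn F
  obtain ⟨π, hπ⟩ := exists_proj n F
  exact main_abstract hπ (by simpa using hn) hA

end Pool.Agent.Lib.MP_8f3271_al
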